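import Pool.Agent.Helper27.EA.SymLow

/-!
# EA-14 Asym: signed sums of asymmetric sets, combinatorics

`pm A = A ∪ -A`. `A` asymmetric (`A ∩ -A = ∅`, in particular `0 ∉ A`).
* `card_pm`: `|pm A| = 2 |A|`. `pm_neg`.
* `signed_cons`: `x = ∑ c a • a`, `∑ |c a| = h`; for `b ∈ pm A`, `b = e a`, `e = ± 1`: if `0 ≤ e c a` then replacing `c a` by `c a + e` shows `b + x ∈ signedSumset (h + 1) A`.
* `signed_two`: `b, b' ∈ pm A`, `b + b' ≠ 0`: `b + b' ∈ signedSumset 2 A` (two cases: the same `a` with the same sign, or different `a`).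
* `signed_three`: three elements of `pm A`, no two of which are opposite.
* `signed_split`: coefficients on disjoint sets add.
* `signed_one_fold`: `hfold h A ⊆ signedSumset h A` is in Helper25 (`ncard_signed_ge`).
-/

set_option autoImplicit false

open Finset
open scoped Pointwise

namespace Pool.Agent.Helper27.EA

open Pool.Agent.Helper25.SignedMin

section
open Classical
variable {G : Type*} [AddCommGroup G] [Fintype G]

/-- `A ∪ -A` -/
noncomputable def pm (A : Finset G) : Finset G := A ∪ A.image (fun a => -a)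

lemma mem_pm {A : Finset G} {b : G} : b ∈ pm A ↔ b ∈ A ∨ -b ∈ A := by
  unfold pm
  rw [mem_union, mem_image]
  constructor
  · rintro (h | ⟨a, h, rfl⟩)
    · exact Or.inl h
    · right
      rwa [neg_neg]
  · rintro (h | h)
    · exact Or.inl h
    · exact Or.inr ⟨-b, h, neg_neg b⟩

lemma pm_neg {A : Finset G} : ∀ b ∈ pm A, -b ∈ pm A := by
  intro b hb
  rw [mem_pm] at hb ⊢
  rw [neg_neg]
  exact hb.symm

theorem card_pm {A : Finset G} (hA : IsAsymmetric A) : (pm A).card = 2 * A.card := by
  unfold pm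
  rw [card_union_of_disjoint, card_image_of_injective _ neg_injective, two_mul]
  rw [Finset.disjoint_left]
  intro x hx hx'
  rw [mem_image] at hx'
  obtain ⟨a, ha, rfl⟩ := hx'
  exact hA a ha hx

lemma exists_sign {A : Finset G} {b : G} (hb : b ∈ pm A) :
    ∃ a ∈ A, ∃ e : ℤ, (e = 1 ∨ e = -1) ∧ b = e • a := by
  rw [mem_pm] at hb
  rcases hb with h | h
  · exact ⟨b, h, 1, Or.inl rfl, by rw [one_zsmul]⟩
  · exact ⟨-b, h, -1, Or.inr rfl, by rw [neg_zsmul, one_zsmul, neg_neg]⟩

lemma sum_abs_add {A : Finset G} {f : G → ℤ} {a0 : G} (ha : a0 ∈ A) {e : ℤ}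
    (he : e = 1 ∨ e = -1) (h0 : 0 ≤ e * f a0) :
    ∑ a ∈ A, |f a + if a = a0 then e else 0| = ∑ a ∈ A, |f a| + 1 := by
  have key : ∀ a, |f a + if a = a0 then e else 0| = |f a| + if a = a0 then 1 else 0 := by
    intro a
    split_ifs with h
    · subst h
      rcases he with rfl | rfl
      · rw [one_mul] at h0
        rw [abs_of_nonneg h0, abs_of_nonneg (by omega)]
      · have h1 : f a ≤ 0 := by linarith
        rw [abs_of_nonpos h1, abs_of_nonpos (by omega)]
        ring
    · simp
  rw [sum_congr rfl fun a _ => key a, sum_add_distrib, sum_ite_eq' A a0, if_pos ha]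

lemma sum_smul_add {A : Finset G} {f : G → ℤ} {a0 : G} (ha : a0 ∈ A) (e : ℤ) :
    ∑ a ∈ A, (f a + if a = a0 then e else 0) • a = ∑ a ∈ A, f a • a + e • a0 := by
  have key : ∀ a : G, (f a + if a = a0 then e else 0) • a = f a • a +
      if a = a0 then e • a else 0 := by
    intro a
    split_ifs with h
    · rw [add_zsmul]
    · rw [add_zero, add_zero]
  rw [sum_congr rfl fun a _ => key a, sum_add_distrib, sum_ite_eq' A a0, if_pos ha]

lemma sign_mul_nonneg {b c a a' : G} {e e' : ℤ} (he : e = 1 ∨ e = -1)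
    (he' : e' = 1 ∨ e' = -1) (hb : b = e • a) (hc : c = e' • a') (h : b + c ≠ 0) :
    0 ≤ e * (if a = a' then e' else 0) := by
  split_ifs with haa
  · subst haa
    rcases he with rfl | rfl <;> rcases he' with rfl | rfl
    · norm_num
    · exfalso; apply h; rw [hb, hc, neg_zsmul, add_neg_cancel]
    · exfalso; apply h; rw [hb, hc, neg_zsmul, neg_add_cancel]
    · norm_num
  · rw [mul_zero]

theorem signed_two {A : Finset G} (hA : IsAsymmetric A) {b b' : G} (hb : b ∈ pm A)
    (hb' : b' ∈ pm A) (h : b + b' ≠ 0) : b + b' ∈ signedSumset 2 A := by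
  obtain ⟨a, ha, e, he, hbe⟩ := exists_sign hb
  obtain ⟨a', ha', e', he', hbe'⟩ := exists_sign hb'
  have h1 := sign_mul_nonneg he he' hbe hbe' h
  refine ⟨fun x => (0 + if x = a' then e' else 0) + if x = a then e else 0, ?_, ?_⟩
  · rw [sum_abs_add (f := fun x => 0 + if x = a' then e' else 0) ha he (by simpa using h1),
      sum_abs_add (f := fun _ => 0) ha' he' (by simp)]
    simp
  · rw [sum_smul_add (f := fun x => 0 + if x = a' then e' else 0) ha e,
      sum_smul_add (f := fun _ => 0) ha' e', ← hbe, ← hbe']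
    simp [add_comm]

theorem signed_three {A : Finset G} (hA : IsAsymmetric A) {b c d : G} (hb : b ∈ pm A)
    (hc : c ∈ pm A) (hd : d ∈ pm A) (h1 : b + c ≠ 0) (h2 : b + d ≠ 0) (h3 : c + d ≠ 0) :
    b + c + d ∈ signedSumset 3 A := by
  obtain ⟨a, ha, e, he, hbe⟩ := exists_sign hb
  obtain ⟨a', ha', e', he', hce⟩ := exists_sign hc
  obtain ⟨a'', ha'', e'', he'', hde⟩ := exists_sign hd
  have k1 := sign_mul_nonneg he he' hbe hce h1
  have k2 := sign_mul_nonneg he he'' hbe hde h2
  have k3 := sign_mul_nonneg he' he'' hce hde h3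
  refine ⟨fun x => ((0 + if x = a'' then e'' else 0) + if x = a' then e' else 0) +
    if x = a then e else 0, ?_, ?_⟩
  · rw [sum_abs_add (f := fun x => (0 + if x = a'' then e'' else 0) + if x = a' then e' else 0)
        ha he (by
          show 0 ≤ e * ((0 + if a = a'' then e'' else 0) + if a = a' then e' else 0)
          rw [mul_add, zero_add]
          exact add_nonneg k2 k1),
      sum_abs_add (f := fun x => 0 + if x = a'' then e'' else 0) ha' he' (by simpa using k3),
      sum_abs_add (f := fun _ => 0) ha'' he'' (by simp)]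
    simp
  · rw [sum_smul_add (f := fun x => (0 + if x = a'' then e'' else 0) + if x = a' then e' else 0)
        ha e, sum_smul_add (f := fun x => 0 + if x = a'' then e'' else 0) ha' e',
      sum_smul_add (f := fun _ => 0) ha'' e'', ← hbe, ← hce, ← hde]
    simp only [zero_zsmul, sum_const_zero, zero_add]
    abel

theorem signed_split {A A0 A1 : Finset G} (h0 : A0 ⊆ A) (h1 : A1 ⊆ A) (hd : Disjoint A0 A1)
    {h k : ℕ} {x y : G} (hx : x ∈ signedSumset h A0) (hy : y ∈ signedSumset k A1) :
    x + y ∈ signedSumset (h + k) A := by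
  obtain ⟨c, hc1, hc2⟩ := hx
  obtain ⟨d, hd1, hd2⟩ := hy
  have hsub : A0 ∪ A1 ⊆ A := union_subset h0 h1
  let f : G → ℤ := fun a => if a ∈ A0 then c a else if a ∈ A1 then d a else 0
  have f0 : ∀ a ∈ A0, f a = c a := fun a ha => if_pos ha
  have f1 : ∀ a ∈ A1, f a = d a := fun a ha => by
    have : a ∉ A0 := fun h => Finset.disjoint_left.1 hd h ha
    show (if a ∈ A0 then c a else if a ∈ A1 then d a else 0) = d a
    rw [if_neg this, if_pos ha]
  have f2 : ∀ a ∈ A, a ∉ A0 ∪ A1 → f a = 0 := fun a _ ha => by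
    rw [mem_union, not_or] at ha
    show (if a ∈ A0 then c a else if a ∈ A1 then d a else 0) = 0
    rw [if_neg ha.1, if_neg ha.2]
  refine ⟨f, ?_, ?_⟩
  · rw [← sum_subset hsub (fun a ha ha' => by rw [f2 a ha ha', abs_zero]), sum_union hd,
      sum_congr rfl (fun a ha => by rw [f0 a ha]), hc1,
      sum_congr rfl (g := fun a => |d a|) (fun a ha => by rw [f1 a ha]), hd1]
    push_cast
    rfl
  · rw [← sum_subset hsub (fun a ha ha' => by rw [f2 a ha ha', zero_zsmul]), sum_union hd,
      sum_congr rfl (fun a ha => by rw [f0 a ha]), hc2,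
      sum_congr rfl (g := fun a => d a • a) (fun a ha => by rw [f1 a ha]), hd2]

end

end Pool.Agent.Helper27.EA
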