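import Pool.Agent.Helper27.EA.Asym

/-!
# EA-15 AsymBd: the bounds for asymmetric sets, `h = 2, 3`

`A` asymmetric, `q p ^ j < |A|`, `1 ≤ q < p`, `B = pm A`, `|B| = 2 |A|`, `u = min p (h q + 1) p ^ j`. `p` is odd (`a ≠ -a` for `a ∈ A`, so `2 a ≠ 0`).
* `asym_one` (`j = 0`, any `h ≥ 2`): `ncard_signed_ge`, `hfold h A`, and `cd` by induction on `h`: `min p (h (|A| - 1) + 1) ≤ |hfold h A|` (`h ≥ 1`), `|A| - 1 ≥ q`.
* `asym_two`: `signedSumset 2 A ⊇ (B + B) \ {0}` (`signed_two`), so `≥ |hfold 2 B| - 1`. If `2 q > p` (`|B| ≥ (p + 1) p ^ j + 2`): `|B + B| ≥ |B|`. If `2 q < p`: `sym_low` with `2 q`: `|B + B| ≥ min p (4 q + 1) p ^ j`. `4 q + 1 ≤ p`: fine. `2 q + 1 < p < 4 q + 1`: `p ^ (j + 1) - 1 ≥ (2 q + 1) p ^ j`.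
  `2 q + 1 = p`: the first statement gives `p ^ (j + 1) - 1`; if `p ^ (j + 1) < 2 |A| = |B|` then `|B + B| - 1 ≥ |B| - 1 ≥ p ^ (j + 1)`.
* `asym_three`: (a) every `w ∈ B` is `b + c + d` with `b, c, d ∈ B`, no two opposite: then `hfold 3 B ⊆ signedSumset 3 A`: `x = b + c + d`; if no two are opposite `signed_three`, otherwise `x` is the third element, in `B`. `|hfold 3 B| ≥ u`: `sym_low` (`|B| > q p ^ j`).
  (b) some `w ∈ B` is not. `B'' = B \ {w, -w}` (`w ≠ -w`), symmetric, `|B''| = 2 |A| - 2 ≥ 2 q p ^ j`. `signedSumset 3 A` contains `w + y`, `y ∈ (B'' + B'') \ {0}` (`signed_three`: `w + b1 ≠ 0` as `-w ∉ B''`), and `w + w + b`, `b ∈ B''`; these two sets are disjoint: `w + b1 + b2 = w + w + b` gives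
  `w = b1 + b2 + (-b)`, and `b1 + b2 ≠ 0`, `b1 ≠ b` (else `b2 = w`), `b2 ≠ b`, so `w` would be a reduced sum. Total `≥ |B'' + B''| - 1 + |B''|`. If `2 q ≤ p`: `sym_low` for `B''` with `2 q - 1` (`|B''| ≥ 2 q p ^ j > (2 q - 1) p ^ j`): `≥ min p (4 q - 1) p ^ j - 1 + 2 q p ^ j ≥ u`.
  If `2 q > p`: `|B''| ≥ 2 q p ^ j > p ^ (j + 1) ≥ u`.
-/

set_option autoImplicit false

open Finset
open scoped Pointwise

namespace Pool.Agent.Helper27.EA

open Pool.Agent.Helper25.SignedMin

section
open Classical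
variable {p : ℕ} {G : Type*} [AddCommGroup G] [Fintype G]

omit [Fintype G] in
private lemma mem_two {B : Finset G} {x : G} :
    x ∈ hfold 2 B ↔ ∃ b ∈ B, ∃ c ∈ B, b + c = x := by
  rw [hfold_succ 1, hfold_succ 0, hfold_zero, mem_add]
  constructor
  · rintro ⟨b, hb, c, hc, rfl⟩
    rw [mem_add] at hc
    obtain ⟨c, hc, z, hz, rfl⟩ := hc
    rw [mem_singleton] at hz
    rw [hz, add_zero]
    exact ⟨b, hb, c, hc, rfl⟩
  · rintro ⟨b, hb, c, hc, rfl⟩
    refine ⟨b, hb, c, ?_, rfl⟩
    rw [mem_add]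
    exact ⟨c, hc, 0, mem_singleton_self 0, add_zero c⟩

omit [Fintype G] in
private lemma mem_three {B : Finset G} {x : G} (hx : x ∈ hfold 3 B) :
    ∃ b ∈ B, ∃ c ∈ B, ∃ d ∈ B, b + c + d = x := by
  rw [hfold_succ 2, mem_add] at hx
  obtain ⟨b, hb, y, hy, rfl⟩ := hx
  obtain ⟨c, hc, d, hd, rfl⟩ := mem_two.1 hy
  exact ⟨b, hb, c, hc, d, hd, add_assoc b c d⟩

omit [Fintype G] in
private lemma card_le_hfold_two (B : Finset G) (hB : B.Nonempty) : B.card ≤ (hfold 2 B).card := by
  rw [hfold_succ]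
  exact card_le_card_add_right (hfold_nonempty 1 hB)

omit [Fintype G] in
private lemma cd_fold (hp : p.Prime) (hG : ∀ g : G, p • g = 0) (A : Finset G) (hA : A.Nonempty)
    (h : ℕ) : min p (h * (A.card - 1) + 1) ≤ (hfold h A).card := by
  induction h with
  | zero =>
    rw [hfold_zero, card_singleton, Nat.zero_mul, Nat.zero_add]
    exact min_le_right _ _
  | succ n ih =>
    rw [hfold_succ]
    refine le_trans ?_ (cd hp hG hA (hfold_nonempty n hA))
    have h1 : 1 ≤ A.card := hA.card_pos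
    obtain ⟨a, ha⟩ : ∃ a, A.card = a + 1 := ⟨A.card - 1, by omega⟩
    rw [ha, Nat.add_sub_cancel] at ih ⊢
    have h2 : (n + 1) * a = n * a + a := by ring
    rw [h2]
    apply le_min (min_le_left _ _)
    rcases le_total p (n * a + 1) with h3 | h3
    · rw [min_eq_left h3] at ih
      refine le_trans (min_le_left _ _) ?_
      omega
    · rw [min_eq_right h3] at ih
      refine le_trans (min_le_right _ _) ?_
      omega

private lemma pm_ne {A : Finset G} (hA : IsAsymmetric A) {w : G} (hw : w ∈ pm A) : w + w ≠ 0 := by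
  intro h
  have h1 : -w = w := neg_eq_of_add_eq_zero_left h
  rw [mem_pm, h1] at hw
  have h2 : w ∈ A := hw.elim id id
  apply hA w h2
  rw [h1]
  exact h2

theorem asym_one (hp : p.Prime) (hG : ∀ g : G, p • g = 0) {q : ℕ} (hq : 1 ≤ q)
    (A : Finset G) (ht : q < A.card) {h : ℕ} (hh : 2 ≤ h) :
    min p (h * q + 1) ≤ (signedSumset h A).ncard := by
  have _h := hh
  have hne : A.Nonempty := by
    rw [← card_pos]
    omega
  refine le_trans ?_ (ncard_signed_ge h A)
  refine le_trans ?_ (cd_fold hp hG A hne h)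
  have h1 : h * q ≤ h * (A.card - 1) := Nat.mul_le_mul_left _ (by omega)
  exact min_le_min_left _ (by omega)

theorem asym_two (hp : p.Prime) (hG : ∀ g : G, p • g = 0) {j q : ℕ} (hq : 1 ≤ q) (hqp : q < p)
    (A : Finset G) (hA : IsAsymmetric A) (ht : q * p ^ j < A.card) :
    min p (2 * q + 1) * p ^ j - 1 ≤ (signedSumset 2 A).ncard ∧
      (2 * q + 1 ≠ p ∨ p ^ (j + 1) < 2 * A.card →
        min p (2 * q + 1) * p ^ j ≤ (signedSumset 2 A).ncard) := by
  have hP : 1 ≤ p ^ j := Nat.one_le_iff_ne_zero.2 (pow_ne_zero _ hp.ne_zero)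
  have hB := card_pm hA
  have hApos : 0 < A.card := by omega
  have hBne : (pm A).Nonempty := by
    rw [← card_pos]
    omega
  have hp2 : p ≠ 2 := by
    rintro rfl
    obtain ⟨w, hw⟩ := hBne
    apply pm_ne hA hw
    rw [← two_nsmul]
    exact hG w
  have hn : (hfold 2 (pm A)).card - 1 ≤ (signedSumset 2 A).ncard := by
    refine le_trans pred_card_le_card_erase (b := ((hfold 2 (pm A)).erase 0).card) ?_
    rw [← Set.ncard_coe_finset]
    apply Set.ncard_le_ncard _ (Set.toFinite _)
    intro x hx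
    rw [mem_coe, mem_erase] at hx
    obtain ⟨b, hb, c, hc, rfl⟩ := mem_two.1 hx.2
    exact signed_two hA hb hc hx.1
  have hBM := card_le_hfold_two (pm A) hBne
  have hpp : p ^ (j + 1) = p * p ^ j := by rw [pow_succ, mul_comm]
  have hodd : 2 * q ≠ p := by
    intro h
    have h5 : 2 ∣ p := ⟨q, h.symm⟩
    exact hp2 ((Nat.prime_dvd_prime_iff_eq Nat.prime_two hp).1 h5).symm
  rcases Nat.lt_or_ge p (2 * q) with hc | hc
  · have h3 : (p + 1) * p ^ j ≤ 2 * q * p ^ j := Nat.mul_le_mul_right _ hc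
    have h4 : 2 * q * p ^ j = 2 * (q * p ^ j) := by ring
    have h5 : (p + 1) * p ^ j = p * p ^ j + p ^ j := by ring
    have h6 : min p (2 * q + 1) * p ^ j ≤ p * p ^ j := Nat.mul_le_mul_right _ (min_le_left _ _)
    constructor
    · omega
    · intro _
      omega
  · have hc' : 2 * q < p := lt_of_le_of_ne hc hodd
    have h3 := sym_low hp hG (by omega : 1 ≤ 2 * q) hc' (pm A) pm_neg (j := j)
      (by rw [hB, mul_assoc]; omega) (le_refl 2)
    have h6 : min p (2 * q + 1) * p ^ j = (2 * q + 1) * p ^ j := by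
      rw [min_eq_right (by omega)]
    rw [h6]
    have h7 : (2 * q + 1) * p ^ j = 2 * (q * p ^ j) + p ^ j := by ring
    have h8 : p ^ j ≤ q * p ^ j := Nat.le_mul_of_pos_left _ (by omega)
    rcases Nat.lt_or_ge p (2 * (2 * q) + 1) with h4 | h4
    · rw [min_eq_left (by omega)] at h3
      have h9 : (2 * q + 1) * p ^ j ≤ p * p ^ j := Nat.mul_le_mul_right _ (by omega)
      constructor
      · omega
      · intro h5
        by_cases h10 : 2 * q + 1 = p
        · rcases h5 with h5 | h5
          · exact absurd h10 h5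
          · rw [h10]
            omega
        · have h11 : (2 * q + 1 + 1) * p ^ j ≤ p * p ^ j := Nat.mul_le_mul_right _ (by omega)
          have h12 : (2 * q + 1 + 1) * p ^ j = 2 * (q * p ^ j) + p ^ j + p ^ j := by ring
          omega
    · rw [min_eq_right (by omega)] at h3
      have h9 : (2 * (2 * q) + 1) * p ^ j = 4 * (q * p ^ j) + p ^ j := by ring
      constructor
      · omega
      · intro _
        omega

theorem asym_three (hp : p.Prime) (hG : ∀ g : G, p • g = 0) {j q : ℕ} (hq : 1 ≤ q) (hqp : q < p)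
    (A : Finset G) (hA : IsAsymmetric A) (ht : q * p ^ j < A.card) :
    min p (3 * q + 1) * p ^ j ≤ (signedSumset 3 A).ncard := by
  have hP : 1 ≤ p ^ j := Nat.one_le_iff_ne_zero.2 (pow_ne_zero _ hp.ne_zero)
  have hB := card_pm hA
  have h8 : p ^ j ≤ q * p ^ j := Nat.le_mul_of_pos_left _ (by omega)
  by_cases hred : ∀ w ∈ pm A, ∃ b ∈ pm A, ∃ c ∈ pm A, ∃ d ∈ pm A,
      b + c ≠ 0 ∧ b + d ≠ 0 ∧ c + d ≠ 0 ∧ b + c + d = w
  · have hw : ∀ w ∈ pm A, w ∈ signedSumset 3 A := by
      intro w hw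
      obtain ⟨b, hb, c, hc, d, hd, h1, h2, h3, rfl⟩ := hred w hw
      exact signed_three hA hb hc hd h1 h2 h3
    refine le_trans (sym_low hp hG hq hqp (pm A) pm_neg (j := j) (by omega)
      (by norm_num : 2 ≤ 3)) ?_
    rw [← Set.ncard_coe_finset]
    apply Set.ncard_le_ncard _ (Set.toFinite _)
    intro x hx
    obtain ⟨b, hb, c, hc, d, hd, rfl⟩ := mem_three (mem_coe.1 hx)
    by_cases h1 : b + c = 0
    · rw [h1, zero_add]
      exact hw d hd
    · by_cases h2 : b + d = 0
      · have h3 : b + c + d = c := by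
          rw [add_right_comm, h2, zero_add]
        rw [h3]
        exact hw c hc
      · by_cases h3 : c + d = 0
        · rw [add_assoc, h3, add_zero]
          exact hw b hb
        · exact signed_three hA hb hc hd h1 h2 h3
  · push Not at hred
    obtain ⟨w, hwB, hw⟩ := hred
    have hww := pm_ne hA hwB
    have hwn : -w ≠ w := by
      intro h
      apply hww
      nth_rewrite 1 [← h]
      exact neg_add_cancel w
    obtain ⟨B, hBdef⟩ : ∃ B, B = ((pm A).erase w).erase (-w) := ⟨_, rfl⟩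
    have memB : ∀ b, b ∈ B ↔ b ≠ -w ∧ b ≠ w ∧ b ∈ pm A := by
      intro b
      rw [hBdef, mem_erase, mem_erase]
    have hBcard : B.card + 2 = 2 * A.card := by
      have e1 : ((pm A).erase w).card + 1 = (pm A).card := card_erase_add_one hwB
      have e2 : (-w) ∈ (pm A).erase w := by
        rw [mem_erase]
        exact ⟨hwn, pm_neg w hwB⟩
      have e3 := card_erase_add_one e2
      rw [← hBdef] at e3
      omega
    have hBneg : ∀ b ∈ B, -b ∈ B := by
      intro b hb
      rw [memB] at hb ⊢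
      refine ⟨fun h => hb.2.1 (neg_injective h), fun h => hb.1 ?_, pm_neg b hb.2.2⟩
      rw [← h, neg_neg]
    have hwb : ∀ b ∈ B, w + b ≠ 0 := by
      intro b hb h
      rw [memB] at hb
      exact hb.1 (eq_neg_of_add_eq_zero_right h)
    have hBne : B.Nonempty := by
      rw [← card_pos]
      omega
    -- the two disjoint families
    obtain ⟨S1, hS1⟩ : ∃ S1 : Finset G, S1 = ((hfold 2 B).erase 0).image (fun y => w + y) :=
      ⟨_, rfl⟩
    obtain ⟨S2, hS2⟩ : ∃ S2 : Finset G, S2 = B.image (fun b => w + w + b) := ⟨_, rfl⟩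
    have c1 : (hfold 2 B).card - 1 ≤ S1.card := by
      rw [hS1, card_image_of_injective _ (add_right_injective w)]
      exact pred_card_le_card_erase
    have c2 : S2.card = B.card := by
      rw [hS2, card_image_of_injective _ (add_right_injective (w + w))]
    have hdisj : Disjoint S1 S2 := by
      rw [disjoint_left]
      intro x hx1 hx2
      rw [hS1, mem_image] at hx1
      rw [hS2, mem_image] at hx2
      obtain ⟨y, hy, rfl⟩ := hx1
      obtain ⟨b, hb, hbe⟩ := hx2
      rw [mem_erase] at hy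
      obtain ⟨hy0, hy⟩ := hy
      obtain ⟨b1, hb1, b2, hb2, rfl⟩ := mem_two.1 hy
      have e1 : w + b = b1 + b2 := by
        have := hbe
        rw [add_assoc] at this
        exact add_left_cancel this
      have hb' := (memB b).1 hb
      have hb1' := (memB b1).1 hb1
      have hb2' := (memB b2).1 hb2
      apply hw b1 hb1'.2.2 b2 hb2'.2.2 (-b) (pm_neg b hb'.2.2) hy0
      · intro h
        have e2 : b1 = b := by
          rw [← sub_eq_add_neg] at h
          exact sub_eq_zero.1 h
        rw [e2, add_comm w b] at e1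
        exact hb2'.2.1 (add_left_cancel e1).symm
      · intro h
        have e2 : b2 = b := by
          rw [← sub_eq_add_neg] at h
          exact sub_eq_zero.1 h
        rw [e2] at e1
        exact hb1'.2.1 (add_right_cancel e1).symm
      · rw [← e1, add_neg_cancel_right]
    have hn : (hfold 2 B).card - 1 + B.card ≤ (signedSumset 3 A).ncard := by
      have e1 : (hfold 2 B).card - 1 + B.card ≤ (S1 ∪ S2).card := by
        rw [card_union_of_disjoint hdisj]
        omega
      refine le_trans e1 ?_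
      rw [← Set.ncard_coe_finset]
      apply Set.ncard_le_ncard _ (Set.toFinite _)
      intro x hx
      rw [mem_coe, mem_union, hS1, hS2, mem_image, mem_image] at hx
      rcases hx with ⟨y, hy, rfl⟩ | ⟨b, hb, rfl⟩
      · rw [mem_erase] at hy
        obtain ⟨hy0, hy⟩ := hy
        obtain ⟨b1, hb1, b2, hb2, rfl⟩ := mem_two.1 hy
        have hb1' := (memB b1).1 hb1
        have hb2' := (memB b2).1 hb2
        change w + (b1 + b2) ∈ signedSumset 3 A
        rw [← add_assoc]
        exact signed_three hA hwB hb1'.2.2 hb2'.2.2 (hwb b1 hb1) (hwb b2 hb2) hy0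
      · exact signed_three hA hwB hwB ((memB b).1 hb).2.2 hww (hwb b hb) (hwb b hb)
    have h6 : min p (3 * q + 1) * p ^ j ≤ p * p ^ j := Nat.mul_le_mul_right _ (min_le_left _ _)
    have h6' : min p (3 * q + 1) * p ^ j ≤ (3 * q + 1) * p ^ j :=
      Nat.mul_le_mul_right _ (min_le_right _ _)
    rcases Nat.lt_or_ge p (2 * q) with hc | hc
    · have h3 : (p + 1) * p ^ j ≤ 2 * q * p ^ j := Nat.mul_le_mul_right _ hc
      have h4 : 2 * q * p ^ j = 2 * (q * p ^ j) := by ring
      have h5 : (p + 1) * p ^ j = p * p ^ j + p ^ j := by ring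
      omega
    · obtain ⟨r, hr⟩ : ∃ r, 2 * q = r + 1 := ⟨2 * q - 1, by omega⟩
      have h2 : r * p ^ j + p ^ j = 2 * (q * p ^ j) := by
        have : (r + 1) * p ^ j = 2 * (q * p ^ j) := by
          rw [← hr]
          ring
        rw [← this]
        ring
      have h3 := sym_low hp hG (by omega : 1 ≤ r) (by omega) B hBneg (j := j)
        (by omega) (le_refl 2)
      rcases Nat.lt_or_ge p (2 * r + 1) with h4 | h4
      · rw [min_eq_left (by omega)] at h3
        omega
      · rw [min_eq_right (by omega)] at h3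
        have h9 : (2 * r + 1) * p ^ j = 2 * (r * p ^ j) + p ^ j := by ring
        have h10 : (3 * q + 1) * p ^ j = 3 * (q * p ^ j) + p ^ j := by ring
        omega

end

end Pool.Agent.Helper27.EA
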