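import Pool.Agent.Helper27.EA.Asym

/-!
# EA-16 AsymFour: the bound for asymmetric sets, `h = 4`

`A` asymmetric, `q p ^ j < |A|`, `j ≥ 1`, `p` odd, so `p ^ j ≥ 3` is odd. `q0` odd: `q0 = q` if `q` is odd, `q0 = q - 1` if `q` is even; `q1 = 2 q - q0` is odd, `q ≤ q1 ≤ q + 1`. `A0 ⊆ A` with `2 |A0| = q0 p ^ j + 1`, `A1 = A \ A0`, `2 |A1| ≥ 2 (q p ^ j + 1) - (q0 p ^ j + 1) = q1 p ^ j + 1`.
`S = (pm A0 + pm A0) \ {0}`, `T = (pm A1 + pm A1) \ {0}`; `S + T ⊆ signedSumset 4 A` (`signed_two`, `signed_split`). `|S| ≥ min p (2 q0 + 1) p ^ j - 1` (`sym_low`, `card_pm`), `|T| ≥ min p (2 q1 + 1) p ^ j - 1` (if `q1 ≥ p`: `|pm A1| > p ^ (j + 1)`, so `|T| ≥ p ^ (j + 1)` too).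
`kneser_step`: either `p ^ (j + 1) ≤ |S + T|`, or `i ≤ j`, `|S| ≤ s p ^ i`, `|T| ≤ t p ^ i`, `s p ^ i + t p ^ i ≤ |S + T| + p ^ i`. `i = 0`: `|S + T| ≥ |S| + |T| - 1 ≥ (m0 + m1) p ^ j - 3`, `m0 = min p (2 q0 + 1) ≥ 3`, `m1 = min p (2 q1 + 1)`;
`m0 + m1 ≥ min p (4 q + 1) + 1`, and `p ^ j ≥ 3`. `i ≥ 1`: `s p ^ i ≥ m0 p ^ j - 1` and `p ^ i ∣ m0 p ^ j` with `p ^ i ≥ 3` give `s p ^ i ≥ m0 p ^ j`, the same for `t`, so `|S + T| ≥ (m0 + m1) p ^ j - p ^ i ≥ (m0 + m1 - 1) p ^ j`.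
-/

set_option autoImplicit false

open Finset
open scoped Pointwise

namespace Pool.Agent.Helper27.EA

open Pool.Agent.Helper25.SignedMin

section
open Classical
variable {p : ℕ} {G : Type*} [AddCommGroup G] [Fintype G]

private theorem asf_hfold_two (B : Finset G) : hfold 2 B = B + B := by
  show B + (B + {0}) = B + B
  rw [show ({0} : Finset G) = 0 from rfl, add_zero]

/-- the nonzero sums of two elements of `pm A` -/
private noncomputable def asf_two (A : Finset G) : Finset G := (pm A + pm A).erase 0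

private theorem asf_two_mem {A : Finset G} (hA : IsAsymmetric A) {x : G} (hx : x ∈ asf_two A) :
    x ∈ signedSumset 2 A := by
  unfold asf_two at hx
  rw [Finset.mem_erase] at hx
  obtain ⟨h0, hx⟩ := hx
  obtain ⟨b, hb, b', hb', rfl⟩ := mem_add.1 hx
  exact signed_two hA hb hb' h0

private theorem asf_two_card (hp : p.Prime) (hG : ∀ g : G, p • g = 0) {j q : ℕ} (hq : 1 ≤ q)
    {A : Finset G} (hA : IsAsymmetric A) (ht : q * p ^ j < 2 * A.card) :
    min p (2 * q + 1) * p ^ j - 1 ≤ (asf_two A).card := by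
  have hp2 := hp.two_le
  have h1 : min q (p - 1) * p ^ j < (pm A).card := by
    rw [card_pm hA]
    exact lt_of_le_of_lt (Nat.mul_le_mul_right _ (min_le_left _ _)) ht
  have h2 := sym_low hp hG (q := min q (p - 1)) (le_min hq (by omega))
    (lt_of_le_of_lt (min_le_right _ _) (by omega)) (pm A) pm_neg h1 (le_refl 2)
  rw [asf_hfold_two] at h2
  have h3 : min p (2 * q + 1) ≤ min p (2 * min q (p - 1) + 1) := by
    rcases le_total q (p - 1) with h | h
    · rw [min_eq_left h]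
    · rw [min_eq_right h]
      refine le_min (min_le_left _ _) ?_
      refine le_trans (min_le_left _ _) ?_
      omega
  have h4 := le_trans (Nat.mul_le_mul_right (p ^ j) h3) h2
  have h5 : (pm A + pm A).card - 1 ≤ (asf_two A).card := Finset.pred_card_le_card_erase
  omega

/-- a multiple of `r ≥ 2` which is at least `m * r - 1` is at least `m * r` -/
private theorem asf_round {m r s c : ℕ} (hr : 2 ≤ r) (h : m * r - 1 ≤ c) (hc : c ≤ s * r) :
    m * r ≤ s * r := by
  by_contra hlt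
  have h1 : s < m := by
    by_contra h2
    exact hlt (Nat.mul_le_mul_right _ (not_lt.1 h2))
  have h2 : (s + 1) * r ≤ m * r := Nat.mul_le_mul_right _ h1
  rw [Nat.add_mul, one_mul] at h2
  omega

private theorem asf_split {q : ℕ} (hq : 1 ≤ q) :
    ∃ q0 q1 : ℕ, 1 ≤ q0 ∧ q0 ≤ q ∧ 1 ≤ q1 ∧ q0 + q1 = 2 * q ∧ Odd q0 := by
  rcases Nat.even_or_odd q with h | h
  · obtain ⟨r, hr⟩ := h
    exact ⟨q - 1, q + 1, by omega, by omega, by omega, by omega, ⟨r - 1, by omega⟩⟩
  · exact ⟨q, q, hq, le_refl q, hq, by omega, h⟩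

private theorem asf_count {P r m0 m1 u N S T s t : ℕ} (hr : 2 ≤ r ∨ (r = 1 ∧ 3 ≤ P)) {d : ℕ}
    (hP : P = d * r) (hd : 1 ≤ d) (hm : u + 1 ≤ m0 + m1) (hm0 : 1 ≤ m0) (hm1 : 1 ≤ m1)
    (hS : m0 * P - 1 ≤ S) (hT : m1 * P - 1 ≤ T) (hs : S ≤ s * r) (ht : T ≤ t * r)
    (h : s * r + t * r ≤ N + r) : u * P ≤ N := by
  have h1 : (u + 1) * P ≤ (m0 + m1) * P := Nat.mul_le_mul_right _ hm
  rw [Nat.add_mul, one_mul, Nat.add_mul] at h1
  rcases hr with hr | ⟨rfl, h3⟩
  · have h2 : m0 * P ≤ s * r := by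
      rw [hP, ← mul_assoc] at hS ⊢
      exact asf_round hr hS hs
    have h3 : m1 * P ≤ t * r := by
      rw [hP, ← mul_assoc] at hT ⊢
      exact asf_round hr hT ht
    have h4 : 1 * r ≤ d * r := Nat.mul_le_mul_right _ hd
    rw [← hP] at h4
    omega
  · have h4 : 1 * P ≤ m0 * P := Nat.mul_le_mul_right _ hm0
    have h5 : 1 * P ≤ m1 * P := Nat.mul_le_mul_right _ hm1
    omega

theorem asym_four (hp : p.Prime) (hG : ∀ g : G, p • g = 0) {j q : ℕ} (hj : 1 ≤ j) (hq : 1 ≤ q)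
    (hqp : q < p) (A : Finset G) (hA : IsAsymmetric A) (ht : q * p ^ j < A.card) :
    min p (4 * q + 1) * p ^ j ≤ (signedSumset 4 A).ncard := by
  -- `p` is odd
  have hp2 := hp.two_le
  have hpodd : Odd p := by
    rcases hp.eq_two_or_odd' with h | h
    · exfalso
      obtain ⟨a, ha⟩ := Finset.card_pos.1 (lt_of_le_of_lt (Nat.zero_le _) ht)
      have h1 : a + a = 0 := by
        have h2 := hG a
        rwa [h, two_nsmul] at h2
      have h3 : -a = a := neg_eq_of_add_eq_zero_left h1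
      have h4 := hA a ha
      rw [h3] at h4
      exact h4 ha
    · exact h
  have hp3 : 3 ≤ p := by
    obtain ⟨r, hr⟩ := hpodd
    omega
  have hP3 : 3 ≤ p ^ j := by
    calc 3 ≤ p := hp3
      _ = p ^ 1 := (pow_one p).symm
      _ ≤ p ^ j := Nat.pow_le_pow_right hp.pos hj
  have hPodd : Odd (p ^ j) := hpodd.pow
  obtain ⟨q0, q1, h01, h0q, h11, hsum, hodd⟩ := asf_split hq
  -- the two parts of `A`
  obtain ⟨n0, hn0⟩ : ∃ n0, q0 * p ^ j + 1 = 2 * n0 := by
    obtain ⟨r, hr⟩ := hodd.mul hPodd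
    exact ⟨r + 1, by omega⟩
  have hle : q0 * p ^ j ≤ q * p ^ j := Nat.mul_le_mul_right _ h0q
  obtain ⟨A0, hA0, hc0⟩ := Finset.exists_subset_card_eq (s := A) (n := n0) (by omega)
  have hc1 : (A \ A0).card = A.card - n0 := by
    rw [Finset.card_sdiff_of_subset hA0, hc0]
  have has0 : IsAsymmetric A0 := fun a ha h => hA a (hA0 ha) (hA0 h)
  have has1 : IsAsymmetric (A \ A0) := fun a ha h =>
    hA a (Finset.sdiff_subset ha) (Finset.sdiff_subset h)
  have hS := asf_two_card hp hG (j := j) h01 has0 (by rw [hc0]; omega)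
  have hT := asf_two_card hp hG (j := j) h11 has1 (by
    rw [hc1]
    have h1 : q0 * p ^ j + q1 * p ^ j = 2 * (q * p ^ j) := by
      rw [← Nat.add_mul, hsum]
      ring
    omega)
  have hsub : (asf_two A0 + asf_two (A \ A0)).card ≤ (signedSumset 4 A).ncard := by
    rw [← Set.ncard_coe_finset]
    refine Set.ncard_le_ncard ?_ (Set.toFinite _)
    intro z hz
    obtain ⟨x, hx, y, hy, rfl⟩ := mem_add.1 (Finset.mem_coe.1 hz)
    exact signed_split hA0 Finset.sdiff_subset Finset.disjoint_sdiff (asf_two_mem has0 hx)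
      (asf_two_mem has1 hy)
  refine le_trans ?_ hsub
  -- the numbers
  have hm0 : 3 ≤ min p (2 * q0 + 1) := le_min hp3 (by omega)
  have hm1 : 3 ≤ min p (2 * q1 + 1) := le_min hp3 (by omega)
  have hm : min p (4 * q + 1) + 1 ≤ min p (2 * q0 + 1) + min p (2 * q1 + 1) := by
    rcases le_total p (2 * q0 + 1) with h | h
    · rw [min_eq_left h]
      have := min_le_left p (4 * q + 1)
      omega
    · rcases le_total p (2 * q1 + 1) with h' | h'
      · rw [min_eq_left h']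
        have := min_le_left p (4 * q + 1)
        omega
      · rw [min_eq_right h, min_eq_right h']
        have := min_le_right p (4 * q + 1)
        omega
  have h9 : ∀ m, 3 ≤ m → 9 ≤ m * p ^ j := fun m h => Nat.mul_le_mul h hP3
  have hSne : (asf_two A0).Nonempty := by
    rw [← Finset.card_pos]
    have := h9 _ hm0
    omega
  have hTne : (asf_two (A \ A0)).Nonempty := by
    rw [← Finset.card_pos]
    have := h9 _ hm1
    omega
  rcases kneser_step hp hG _ _ hSne hTne j with h | ⟨i, s, t, hij, hs, ht', h⟩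
  · calc min p (4 * q + 1) * p ^ j ≤ p * p ^ j := Nat.mul_le_mul_right _ (min_le_left _ _)
      _ = p ^ (j + 1) := by ring
      _ ≤ _ := h
  · refine asf_count (P := p ^ j) (r := p ^ i) (d := p ^ (j - i)) ?_ ?_ ?_ hm (by omega) (by omega)
      hS hT hs ht' h
    · rcases Nat.eq_zero_or_pos i with rfl | hi
      · right
        exact ⟨pow_zero p, hP3⟩
      · left
        calc 2 ≤ p := hp2
          _ = p ^ 1 := (pow_one p).symm
          _ ≤ p ^ i := Nat.pow_le_pow_right hp.pos hi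
    · rw [← pow_add]
      congr 1
      omega
    · exact Nat.one_le_pow _ _ hp.pos

end

end Pool.Agent.Helper27.EA
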