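import Pool.Agent.Helper27.EA.Grp

/-!
# EA-04 Avg: counting over lines and over the planes through a line

`D` is a finite set with `0 ∈ D` (for `line_bound`).
* `line_bound`: `∑ x ≠ 0, (|inH D ⟨x⟩| - 1) = ∑ x ≠ 0, ∑ d ∈ D \ {0}, [d ∈ ⟨x⟩] = ∑ d ∈ D \ {0}, #{x ≠ 0 | d ∈ ⟨x⟩} = (|D| - 1) (p - 1)`, because for `d ≠ 0`: `d ∈ ⟨x⟩` and `x ≠ 0` iff `x ∈ ⟨d⟩ \ {0}` (`mem_line`, `card_line`). The left side is
  at least `r (p ^ n - 1)`.
* `line_bound_out`: the same with the `x` outside `L = ⟨y⟩`: for `d ∈ D \ L`: `d ∈ ⟨x⟩`, `x ∉ L` iff `x ∈ ⟨d⟩ \ {0}` (if `x ∈ L` then `d ∈ L`); there are `p ^ n - p` elements `x ∉ L`, and `inH D ⟨x⟩ \ {0}` is disjoint from `L` (`mem_line`).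
* `plane_bound`: `L = ⟨y⟩`; `∑ x ∉ L, (|inH D (L ⊔ ⟨x⟩)| - |inH D L|) = ∑ d ∈ D \ L, #{x ∉ L | d ∈ L ⊔ ⟨x⟩} = (|D| - |inH D L|) (p ^ 2 - p)`, because for `d ∉ L`, `x ∉ L`: `d ∈ L ⊔ ⟨x⟩` iff `x ∈ L ⊔ ⟨d⟩` (`mem_plane` twice), `card_plane`,
  `card_line`. There are `p ^ n - p` elements `x ∉ L`.
-/

set_option autoImplicit false

open Finset
open scoped Pointwise

namespace Pool.Agent.Helper27.EA

section
open Classical
variable {p : ℕ} {G : Type*} [AddCommGroup G] [Finite G]

private theorem av_card [Fintype G] (K : AddSubgroup G) :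
    (univ.filter (fun g : G => g ∈ K)).card = Nat.card K := by
  rw [Nat.card_eq_fintype_card]
  exact (Fintype.card_subtype (fun g : G => g ∈ K)).symm

private theorem av_card_not [Fintype G] (K : AddSubgroup G) :
    (univ.filter (fun g : G => g ∉ K)).card = Nat.card G - Nat.card K := by
  have h1 : (univ.filter (fun g : G => g ∈ K)).card + (univ.filter (fun g : G => g ∉ K)).card =
      (univ : Finset G).card := Finset.card_filter_add_card_filter_not (s := univ) (fun g : G => g ∈ K)
  rw [av_card K, Finset.card_univ, ← Nat.card_eq_fintype_card] at h1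
  omega

private theorem av_card_out (D : Finset G) (K : AddSubgroup G) :
    (D.filter (fun d => d ∉ K)).card = D.card - (inH D K).card := by
  have h1 : (D.filter (fun g : G => g ∈ K)).card + (D.filter (fun g : G => g ∉ K)).card =
      D.card := Finset.card_filter_add_card_filter_not (s := D) (fun g : G => g ∈ K)
  have h2 : (inH D K).card = (D.filter (fun g : G => g ∈ K)).card := rfl
  omega

/-- the elements `x ≠ 0` with `d` in the line of `x` -/
private theorem av_line [Fintype G] (hp : p.Prime) (hG : ∀ g : G, p • g = 0) (X : Finset G)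
    (hX : (0 : G) ∉ X) {d : G} (hd : d ≠ 0) :
    (X.filter (fun x => d ∈ AddSubgroup.zmultiples x)).card ≤ p - 1 := by
  have h1 : X.filter (fun x => d ∈ AddSubgroup.zmultiples x) ⊆
      (univ.filter (fun g : G => g ∈ AddSubgroup.zmultiples d)).erase 0 := by
    intro x hx
    rw [mem_filter] at hx
    rw [mem_erase, mem_filter]
    refine ⟨?_, mem_univ _, mem_line hp hG hd hx.2⟩
    rintro rfl
    exact hX hx.1
  refine le_trans (card_le_card h1) ?_
  rw [card_erase_of_mem (by rw [mem_filter]; exact ⟨mem_univ _, zero_mem _⟩), av_card,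
    card_line hp hG hd]

theorem line_bound (hp : p.Prime) (hG : ∀ g : G, p • g = 0) {n : ℕ} (hn : Nat.card G = p ^ n)
    (D : Finset G) (h0 : (0 : G) ∈ D) (r : ℕ)
    (h : ∀ x : G, x ≠ 0 → r + 1 ≤ (inH D (AddSubgroup.zmultiples x)).card) :
    r * (p ^ n - 1) ≤ (p - 1) * (D.card - 1) := by
  haveI := Fintype.ofFinite G
  have key := Finset.card_mul_le_card_mul (s := (univ : Finset G).erase 0) (t := D.erase 0)
    (m := r) (n := p - 1) (fun x d => d ∈ AddSubgroup.zmultiples x) ?_ ?_
  · rw [card_erase_of_mem (mem_univ _), card_erase_of_mem h0, Finset.card_univ,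
      ← Nat.card_eq_fintype_card, hn] at key
    rw [mul_comm r, mul_comm (p - 1)]
    exact key
  · intro x hx
    have hx0 : x ≠ 0 := (mem_erase.1 hx).1
    have h1 := h x hx0
    have h2 : (inH D (AddSubgroup.zmultiples x)).erase 0 ⊆
        (D.erase 0).filter (fun d => d ∈ AddSubgroup.zmultiples x) := by
      intro d hd
      rw [mem_erase, mem_inH] at hd
      rw [mem_filter, mem_erase]
      exact ⟨⟨hd.1, hd.2.1⟩, hd.2.2⟩
    have h3 := card_le_card h2
    have h4 := Finset.pred_card_le_card_erase (s := inH D (AddSubgroup.zmultiples x)) (a := 0)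
    show r ≤ ((D.erase 0).filter (fun d => d ∈ AddSubgroup.zmultiples x)).card
    omega
  · intro d hd
    exact av_line hp hG _ (by simp) (mem_erase.1 hd).1

theorem line_bound_out (hp : p.Prime) (hG : ∀ g : G, p • g = 0) {n : ℕ} (hn : Nat.card G = p ^ n)
    (D : Finset G) {y : G} (hy : y ≠ 0) (r : ℕ)
    (h : ∀ x : G, x ∉ AddSubgroup.zmultiples y → r + 1 ≤ (inH D (AddSubgroup.zmultiples x)).card) :
    r * (p ^ n - p) ≤ (p - 1) * (D.card - (inH D (AddSubgroup.zmultiples y)).card) := by
  haveI := Fintype.ofFinite G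
  have key := Finset.card_mul_le_card_mul
    (s := univ.filter (fun g : G => g ∉ AddSubgroup.zmultiples y))
    (t := D.filter (fun d => d ∉ AddSubgroup.zmultiples y))
    (m := r) (n := p - 1) (fun x d => d ∈ AddSubgroup.zmultiples x) ?_ ?_
  · rw [av_card_not, av_card_out, card_line hp hG hy, hn] at key
    rw [mul_comm r, mul_comm (p - 1)]
    exact key
  · intro x hx
    have hxy : x ∉ AddSubgroup.zmultiples y := (mem_filter.1 hx).2
    have h1 := h x hxy
    have h2 : (inH D (AddSubgroup.zmultiples x)).erase 0 ⊆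
        (D.filter (fun d => d ∉ AddSubgroup.zmultiples y)).filter
          (fun d => d ∈ AddSubgroup.zmultiples x) := by
      intro d hd
      rw [mem_erase, mem_inH] at hd
      rw [mem_filter, mem_filter]
      refine ⟨⟨hd.2.1, ?_⟩, hd.2.2⟩
      intro hdy
      have h5 := mem_line hp hG hd.1 hd.2.2
      exact hxy ((AddSubgroup.zmultiples_le_of_mem hdy) h5)
    have h3 := card_le_card h2
    have h4 := Finset.pred_card_le_card_erase (s := inH D (AddSubgroup.zmultiples x)) (a := 0)
    show r ≤ ((D.filter (fun d => d ∉ AddSubgroup.zmultiples y)).filter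
          (fun d => d ∈ AddSubgroup.zmultiples x)).card
    omega
  · intro d hd
    have hdy := (mem_filter.1 hd).2
    refine av_line hp hG _ ?_ ?_
    · intro h1
      exact (mem_filter.1 h1).2 (zero_mem _)
    · rintro rfl
      exact hdy (zero_mem _)

theorem plane_bound (hp : p.Prime) (hG : ∀ g : G, p • g = 0) {n : ℕ} (hn : Nat.card G = p ^ n)
    (D : Finset G) {y : G} (hy : y ≠ 0) (a b : ℕ)
    (ha : (inH D (AddSubgroup.zmultiples y)).card = a)
    (h : ∀ x : G, x ∉ AddSubgroup.zmultiples y →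
      a + b ≤ (inH D (AddSubgroup.zmultiples y ⊔ AddSubgroup.zmultiples x)).card) :
    b * (p ^ n - p) ≤ (p ^ 2 - p) * (D.card - a) := by
  haveI := Fintype.ofFinite G
  have key := Finset.card_mul_le_card_mul
    (s := univ.filter (fun g : G => g ∉ AddSubgroup.zmultiples y))
    (t := D.filter (fun d => d ∉ AddSubgroup.zmultiples y))
    (m := b) (n := p ^ 2 - p)
    (fun x d => d ∈ AddSubgroup.zmultiples y ⊔ AddSubgroup.zmultiples x) ?_ ?_
  · rw [av_card_not, av_card_out, card_line hp hG hy, hn, ha] at key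
    rw [mul_comm b, mul_comm (p ^ 2 - p)]
    exact key
  · intro x hx
    have hxy : x ∉ AddSubgroup.zmultiples y := (mem_filter.1 hx).2
    have h1 := h x hxy
    have h2 : inH D (AddSubgroup.zmultiples y ⊔ AddSubgroup.zmultiples x) \
        inH D (AddSubgroup.zmultiples y) ⊆
        (D.filter (fun d => d ∉ AddSubgroup.zmultiples y)).filter
          (fun d => d ∈ AddSubgroup.zmultiples y ⊔ AddSubgroup.zmultiples x) := by
      intro d hd
      rw [mem_sdiff, mem_inH, mem_inH] at hd
      rw [mem_filter, mem_filter]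
      exact ⟨⟨hd.1.1, fun h5 => hd.2 ⟨hd.1.1, h5⟩⟩, hd.1.2⟩
    have h3 := card_le_card h2
    have h4 := Finset.le_card_sdiff (inH D (AddSubgroup.zmultiples y))
      (inH D (AddSubgroup.zmultiples y ⊔ AddSubgroup.zmultiples x))
    show b ≤ ((D.filter (fun d => d ∉ AddSubgroup.zmultiples y)).filter
          (fun d => d ∈ AddSubgroup.zmultiples y ⊔ AddSubgroup.zmultiples x)).card
    omega
  · intro d hd
    have hdy : d ∉ AddSubgroup.zmultiples y := (mem_filter.1 hd).2
    have h1 : (univ.filter (fun g : G => g ∉ AddSubgroup.zmultiples y)).filter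
        (fun x => d ∈ AddSubgroup.zmultiples y ⊔ AddSubgroup.zmultiples x) ⊆
        (univ.filter (fun g : G => g ∈ AddSubgroup.zmultiples y ⊔ AddSubgroup.zmultiples d)) \
          (univ.filter (fun g : G => g ∈ AddSubgroup.zmultiples y)) := by
      intro x hx
      rw [mem_filter, mem_filter] at hx
      rw [mem_sdiff, mem_filter, mem_filter]
      exact ⟨⟨mem_univ _, mem_plane hp hG hdy hx.2⟩, fun h5 => hx.1.2 h5.2⟩
    have h2 : univ.filter (fun g : G => g ∈ AddSubgroup.zmultiples y) ⊆
        univ.filter (fun g : G => g ∈ AddSubgroup.zmultiples y ⊔ AddSubgroup.zmultiples d) := by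
      intro x hx
      rw [mem_filter] at hx ⊢
      exact ⟨mem_univ _, (le_sup_left : AddSubgroup.zmultiples y ≤ _) hx.2⟩
    have h3 := card_le_card h1
    rw [card_sdiff_of_subset h2, av_card, av_card, card_plane hp hG hy hdy,
      card_line hp hG hy] at h3
    exact h3

end

end Pool.Agent.Helper27.EA
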