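import Pool.Agent.Helper25.SignedMin.Main

/-!
# Project EA (MP_0ca48d_co): signed sumsets in elementary abelian groups. Definitions

`sl A H c` is the part of `A` in the coset `c` of the subgroup `H`; `inH A H` the part of `A` in `H`.
Memo: memo_MP_0ca48d_co_EA_helper27.md.
-/

set_option autoImplicit false

open Finset
open scoped Pointwise

namespace Pool.Agent.Helper27.EA

section
open Classical
variable {G : Type*} [AddCommGroup G]

/-- the part of `A` in the coset `c` of `H` -/
noncomputable def sl (A : Finset G) (H : AddSubgroup G) (c : G ⧸ H) : Finset G :=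
  A.filter (fun a => (QuotientAddGroup.mk a : G ⧸ H) = c)

/-- the part of `A` in the subgroup `H` -/
noncomputable def inH (A : Finset G) (H : AddSubgroup G) : Finset G := A.filter (fun a => a ∈ H)

lemma mem_sl {A : Finset G} {H : AddSubgroup G} {c : G ⧸ H} {a : G} :
    a ∈ sl A H c ↔ a ∈ A ∧ (QuotientAddGroup.mk a : G ⧸ H) = c := by
  unfold sl
  rw [mem_filter]

lemma mem_inH {A : Finset G} {H : AddSubgroup G} {a : G} : a ∈ inH A H ↔ a ∈ A ∧ a ∈ H := by
  unfold inH
  rw [mem_filter]

lemma inH_subset (A : Finset G) (H : AddSubgroup G) : inH A H ⊆ A := filter_subset _ _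

lemma sl_subset (A : Finset G) (H : AddSubgroup G) (c : G ⧸ H) : sl A H c ⊆ A := filter_subset _ _

lemma inH_eq (A : Finset G) (H : AddSubgroup G) : inH A H = sl A H 0 := by
  ext a
  rw [mem_inH, mem_sl, QuotientAddGroup.eq_zero_iff]

lemma sl_sub_sl (A : Finset G) (H : AddSubgroup G) (c c' : G ⧸ H) :
    sl A H c - sl A H c' ⊆ sl (A - A) H (c - c') := by
  intro x hx
  rw [mem_sub] at hx
  obtain ⟨a, ha, b, hb, rfl⟩ := hx
  rw [mem_sl] at ha hb ⊢
  refine ⟨sub_mem_sub ha.1 hb.1, ?_⟩
  rw [← ha.2, ← hb.2]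
  rfl

end

end Pool.Agent.Helper27.EA
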