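import Mathlib

/-!
# EA-05 RowsA: the numerical inequality for level counts, many nonempty rows (Mathlib only)

`N 1 ≥ N 2 ≥ ... ≥ N M ≥ 1`, `s = N 1`, `t = ∑ N r > q p`, `F` antitone, `F (r + r' - 1) ≥ min p (N r + N r' - 1)`. Here `2 s ≥ p + 1`.
* If `N r + N (M - r) ≥ p + 1` for some `1 ≤ r < M`: `F (M - 1) ≥ p`, so `F k ≥ p` for `1 ≤ k ≤ M - 1`, and `F (M + r - 1) ≥ N r` for `1 ≤ r ≤ M` (as `N M ≥ 1`, `N r ≤ p`). Sum: `≥ (M - 1) p + t ≥ (q + 1) p + q p + 1`.
* Otherwise `N r + N (M - r) ≤ p` for all `1 ≤ r < M`. `z = p - s < s`, `N M ≤ N (M - 1) ≤ p - N 1 = z`. For `1 ≤ k ≤ M`: `F k ≥ min p (s + N k - 1) = s + min z (N k - 1)`; for `2 ≤ r ≤ M`: `F (M + r - 1) ≥ N r`. So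
  `∑ F ≥ M s + ∑_{k ≤ M} min z (N k - 1) + (t - s)`. With `e k = (N k - 1) - min z (N k - 1)` (truncated `N k - 1 - z`): `∑ min = t - M - ∑ e k`, `e 1 = s - 1 - z`, `e M = 0` (`N M ≤ z`), `e k ≤ N k - z` (truncated), and
  `(N k - z) + (N (M - k) - z) ≤ s - z` (truncated subtractions; if both are positive the sum is `≤ p - 2 z = s - z`, otherwise use `N k ≤ s`). So `2 ∑_{1 ≤ k < M} e k + 2 ≤ (M - 1) (s - z)` where the `+ 2` comes from `e 1 = (s - z) - 1`
  (sum the inequality over `k = 1, ..., M - 1`, reflect with `Finset.sum_range_reflect` or an involution; `e k ≤ f k` with `f k` the truncated `N k - z`, `e 1 = f 1 - 1`). Hence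
  `2 ∑ F ≥ 2 (M - 1) s + 4 t - 2 M + 2 - (M - 1) (s - z) = 4 t + (M - 1) p - 2 M + 2 = 4 t + (M - 1) (p - 2) ≥ 4 q p + 4 + (q + 1) (p - 2) ≥ 2 (2 q + 1) p`.
-/

set_option autoImplicit false

open Finset

namespace Pool.Agent.Helper27.EA

private lemma ra_sum (G : ℕ → ℕ) (n : ℕ) : ∑ k ∈ Icc 1 n, G k = ∑ i ∈ range n, G (i + 1) := by
  induction n with
  | zero => simp
  | succ n ih => rw [Finset.sum_Icc_succ_top (by omega), ih, sum_range_succ]

private lemma ra_anti {G : ℕ → ℕ} {m : ℕ} (h : ∀ k, 1 ≤ k → k < m → G (k + 1) ≤ G k) {a b : ℕ}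
    (ha : 1 ≤ a) (hab : a ≤ b) (hb : b ≤ m) : G b ≤ G a := by
  induction b, hab using Nat.le_induction with
  | base => exact le_rfl
  | succ n hn ih => exact (h n (ha.trans hn) (by omega)).trans (ih (by omega))

/-- The reflection argument. -/
private lemma ra_refl {L d : ℕ} (f : ℕ → ℕ) (hf : ∀ i, i < L → f i + f (L - 1 - i) ≤ d) :
    2 * ∑ i ∈ range L, f i ≤ L * d := by
  have h1 : ∑ i ∈ range L, f (L - 1 - i) = ∑ i ∈ range L, f i := sum_range_reflect f L
  have h2 : ∑ i ∈ range L, (f i + f (L - 1 - i)) ≤ ∑ _i ∈ range L, d :=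
    sum_le_sum fun i hi => hf i (mem_range.1 hi)
  rw [sum_add_distrib, h1, sum_const, card_range, smul_eq_mul] at h2
  linarith

theorem rowsA {p q M : ℕ} (hq : 1 ≤ q) (hM : q + 2 ≤ M) (hMp : 2 * M + 1 ≤ p) (N F : ℕ → ℕ)
    (hN : ∀ r, 1 ≤ r → r < M → N (r + 1) ≤ N r) (hNM : 1 ≤ N M) (hN1 : N 1 ≤ p)
    (hs : p + 1 ≤ 2 * N 1) (hFa : ∀ k, 1 ≤ k → F (k + 1) ≤ F k)
    (hF : ∀ r r', 1 ≤ r → r ≤ M → 1 ≤ r' → r' ≤ M → min p (N r + N r' - 1) ≤ F (r + r' - 1))
    (ht : q * p < ∑ r ∈ Icc 1 M, N r) :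
    (2 * q + 1) * p ≤ ∑ k ∈ Icc 1 (2 * M - 1), F k := by
  obtain ⟨L, rfl⟩ : ∃ L, M = L + 1 := ⟨M - 1, by omega⟩
  have hNa : ∀ a b, 1 ≤ a → a ≤ b → b ≤ L + 1 → N b ≤ N a := fun a b ha hab hb =>
    ra_anti hN ha hab hb
  have hFan : ∀ a b, 1 ≤ a → a ≤ b → F b ≤ F a := fun a b ha hab =>
    ra_anti (m := b) (fun k hk _ => hFa k hk) ha hab le_rfl
  have hNp : ∀ r, 1 ≤ r → r ≤ L + 1 → N r ≤ N 1 := fun r h1 h2 => hNa 1 r le_rfl h1 h2
  have hN1' : ∀ r, 1 ≤ r → r ≤ L + 1 → 1 ≤ N r := fun r h1 h2 =>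
    hNM.trans (hNa r (L + 1) h1 h2 le_rfl)
  have hup : ∀ r, 1 ≤ r → r ≤ L + 1 → N r ≤ F (L + r) := by
    intro r h1 h2
    have h3 := hF r (L + 1) h1 h2 (by omega) le_rfl
    have h4 : r + (L + 1) - 1 = L + r := by omega
    rw [h4] at h3
    have h5 := hNp r h1 h2
    exact (le_min (by omega) (by omega)).trans h3
  rw [ra_sum] at ht ⊢
  have hp2 : 2 ≤ p := by omega
  have hqz : (1 : ℤ) ≤ q := by exact_mod_cast hq
  have hpz : (2 : ℤ) ≤ p := by exact_mod_cast hp2
  have hLz : (q : ℤ) + 1 ≤ L := by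
    have : q + 1 ≤ L := by omega
    exact_mod_cast this
  have hpr2 : (0 : ℤ) ≤ ((q : ℤ) - 1) * (p - 2) := mul_nonneg (by linarith) (by linarith)
  have hpr1 : (0 : ℤ) ≤ ((L : ℤ) - (q + 1)) * (p - 2) := mul_nonneg (by linarith) (by linarith)
  by_cases hc : ∃ r, 1 ≤ r ∧ r ≤ L ∧ p + 1 ≤ N r + N (L + 1 - r)
  · obtain ⟨r, hr1, hr2, hr3⟩ := hc
    have h1 := hF r (L + 1 - r) hr1 (by omega) (by omega) (by omega)
    have h2 : r + (L + 1 - r) - 1 = L := by omega
    rw [h2] at h1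
    have h3 : p ≤ F L := (le_min le_rfl (by omega)).trans h1
    have h4 : 2 * (L + 1) - 1 = L + (L + 1) := by omega
    rw [h4, sum_range_add]
    have h5 : L * p ≤ ∑ i ∈ range L, F (i + 1) := by
      calc L * p = ∑ _i ∈ range L, p := by rw [sum_const, card_range, smul_eq_mul]
        _ ≤ ∑ i ∈ range L, F (i + 1) := sum_le_sum fun i hi => by
            have := mem_range.1 hi
            exact h3.trans (hFan (i + 1) L (by omega) (by omega))
    have h6 : ∑ i ∈ range (L + 1), N (i + 1) ≤ ∑ i ∈ range (L + 1), F (L + i + 1) :=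
      sum_le_sum fun i hi => by
        have := mem_range.1 hi
        have h7 := hup (i + 1) (by omega) (by omega)
        rwa [← add_assoc] at h7
    have h7 : (q + 1) * p ≤ L * p := Nat.mul_le_mul_right p (by omega)
    have h8 : (2 * q + 1) * p = (q + 1) * p + q * p := by ring
    omega
  · push Not at hc
    obtain ⟨z, hz⟩ : ∃ z, p = N 1 + z := ⟨p - N 1, by omega⟩
    obtain ⟨d, hd⟩ : ∃ d, N 1 = z + d := ⟨N 1 - z, by omega⟩
    have hd1 : 1 ≤ d := by omega
    have hL1 : 1 ≤ L := by omega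
    have h4 : 2 * (L + 1) - 1 = (L + 1) + L := by omega
    rw [h4, sum_range_add]
    obtain ⟨e, he⟩ : ∃ e : ℕ → ℕ, e = fun i => N (i + 1) - 1 - z := ⟨_, rfl⟩
    obtain ⟨f, hf⟩ : ∃ f : ℕ → ℕ, f = fun i => N (i + 1) - z := ⟨_, rfl⟩
    have hG : ∀ i ∈ range (L + 1), N 1 + N (i + 1) ≤ F (i + 1) + e i + 1 := by
      intro i hi
      have hi' := mem_range.1 hi
      have h1 := hF 1 (i + 1) le_rfl (by omega) (by omega) (by omega)
      have h2 : 1 + (i + 1) - 1 = i + 1 := by omega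
      rw [h2] at h1
      have h3 := hN1' (i + 1) (by omega) (by omega)
      rw [he]
      show N 1 + N (i + 1) ≤ F (i + 1) + (N (i + 1) - 1 - z) + 1
      rcases le_total p (N 1 + N (i + 1) - 1) with h5 | h5
      · rw [min_eq_left h5] at h1
        omega
      · rw [min_eq_right h5] at h1
        omega
    have hA := sum_le_sum hG
    rw [sum_add_distrib, sum_add_distrib, sum_add_distrib, sum_const, sum_const, card_range,
      smul_eq_mul, smul_eq_mul, mul_one] at hA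
    have hC : ∑ j ∈ range L, N (j + 1 + 1) ≤ ∑ j ∈ range L, F (L + 1 + j + 1) :=
      sum_le_sum fun j hj => by
        have := mem_range.1 hj
        have h7 := hup (j + 1 + 1) (by omega) (by omega)
        have h8 : L + (j + 1 + 1) = L + 1 + j + 1 := by omega
        rwa [h8] at h7
    have hT := sum_range_succ' (fun i => N (i + 1)) L
    have heL : e L = 0 := by
      have h1 := hc 1 le_rfl hL1
      have h2 : L + 1 - 1 = L := by omega
      rw [h2] at h1
      have h3 := hNa L (L + 1) hL1 (by omega) le_rfl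
      rw [he]
      show N (L + 1) - 1 - z = 0
      omega
    have hE := sum_range_succ e L
    rw [heL, add_zero] at hE
    have hEf : ∑ i ∈ range L, e i + 1 ≤ ∑ i ∈ range L, f i := by
      obtain ⟨L', rfl⟩ : ∃ L', L = L' + 1 := ⟨L - 1, by omega⟩
      rw [sum_range_succ' e, sum_range_succ' f]
      have h1 : e 0 + 1 = f 0 := by
        rw [he, hf]
        show N (0 + 1) - 1 - z + 1 = N (0 + 1) - z
        rw [zero_add, hd]
        omega
      have h2 : ∑ i ∈ range L', e (i + 1) ≤ ∑ i ∈ range L', f (i + 1) :=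
        sum_le_sum fun i _ => by
          rw [he, hf]
          show N (i + 1 + 1) - 1 - z ≤ N (i + 1 + 1) - z
          omega
      omega
    have hff : 2 * ∑ i ∈ range L, f i ≤ L * d := by
      refine ra_refl f fun i hi => ?_
      have h1 := hc (i + 1) (by omega) (by omega)
      have h2 : L + 1 - (i + 1) = L - 1 - i + 1 := by omega
      rw [h2] at h1
      have h3 := hNp (i + 1) (by omega) (by omega)
      have h5 := hNp (L - 1 - i + 1) (by omega) (by omega)
      rw [hf]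
      show N (i + 1) - z + (N (L - 1 - i + 1) - z) ≤ d
      omega
    generalize ∑ i ∈ range (L + 1), F (i + 1) = S1 at *
    generalize ∑ j ∈ range L, F (L + 1 + j + 1) = S2 at *
    generalize ∑ j ∈ range L, N (j + 1 + 1) = T2 at *
    generalize ∑ i ∈ range (L + 1), N (i + 1) = T at *
    generalize ∑ i ∈ range (L + 1), e i = Se at *
    generalize ∑ i ∈ range L, e i = Se' at *
    generalize ∑ i ∈ range L, f i = Sf at *
    rw [zero_add] at hT
    subst hE
    rw [hd] at hA hT hz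
    zify at hA hC hT hEf hff ht hz ⊢
    rw [hz] at hpr1 hpr2 ht ⊢
    nlinarith

end Pool.Agent.Helper27.EA
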