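import Mathlib

/-!
# EA-06 RowsB: the numerical inequality for level counts, few nonempty rows (Mathlib only)

`N 1 ≥ ... ≥ N M ≥ 1`, `s = N 1`, `2 s + 1 ≤ p`, `t = ∑ N r > q p`, `t ≤ s M`. All `N r + N r' - 1 < p`, so `F (r + r' - 1) ≥ N r + N r' - 1`.
* `B1`: `F (2 r - 1) ≥ 2 N r - 1` (`1 ≤ r ≤ M`), `F (2 r) ≥ N r + N (r + 1) - 1` (`1 ≤ r < M`): `∑ F ≥ 2 t - M + (2 t - N 1 - N M) - (M - 1) ≥ 4 t - 2 s - 2 M + 1`.
* `B2`: `F k ≥ N k + s - 1` (`1 ≤ k ≤ M`), `F (M + r - 1) ≥ N r` (`2 ≤ r ≤ M`): `∑ F ≥ t + M (s - 1) + t - s = 2 t + (M - 1) (s - 1) - 1`.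
* If `B2 < (2 q + 1) p`: `(M - 1) (s - 1) ≤ (2 q + 1) p - 2 t`, and `t ≤ s M = (M - 1) (s - 1) + M + s - 1` gives `3 t ≤ (2 q + 1) p + M + s - 1 ≤ (2 q + 2) p - 2`; with `t ≥ q p + 1`: `q = 1`. Then `M ≥ 3`, `s ≥ 3` (`t ≤ s M`, `2 M < p`, `t > p`),
  and `(M - 3) (s - 3) ≥ 0` gives `2 (M - 1) + 2 (s - 1) ≤ 4 + (M - 1) (s - 1) ≤ 4 + 3 p - 2 t`. So `B1 = 4 t + 1 - 2 (M + s) ≥ 4 t + 1 - 8 - (3 p - 2 t) = 6 t - 3 p - 7 ≥ 3 p - 1`, with equality only if `t = p + 1` and
  `2 (M + s) = 8 + 3 p - 2 t = p + 6`, impossible as `p` is odd. So `B1 ≥ 3 p`.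
-/

set_option autoImplicit false

open Finset

namespace Pool.Agent.Helper27.EA

private theorem icc_range (f : ℕ → ℕ) (n : ℕ) :
    ∑ k ∈ Icc 1 n, f k = ∑ i ∈ range n, f (i + 1) := by
  induction n with
  | zero => simp
  | succ n ih => rw [Finset.sum_Icc_succ_top (by omega), ih, Finset.sum_range_succ]

private theorem split_odd (f : ℕ → ℕ) (m : ℕ) :
    ∑ i ∈ range (2 * m + 1), f (i + 1) =
      ∑ i ∈ range (m + 1), f (2 * i + 1) + ∑ i ∈ range m, f (2 * i + 2) := by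
  induction m with
  | zero => simp
  | succ m ih =>
    have e : 2 * (m + 1) + 1 = (2 * m + 1) + 1 + 1 := by ring
    rw [e, Finset.sum_range_succ, Finset.sum_range_succ, ih,
      Finset.sum_range_succ (fun i => f (2 * i + 1)) (m + 1),
      Finset.sum_range_succ (fun i => f (2 * i + 2)) m]
    have e1 : 2 * m + 1 + 1 = 2 * m + 2 := by ring
    have e2 : 2 * m + 1 + 1 + 1 = 2 * (m + 1) + 1 := by ring
    rw [e2, e1]
    ring

theorem rowsB {p q M : ℕ} (hodd : p % 2 = 1) (hq : 1 ≤ q) (hM : q + 2 ≤ M) (hMp : 2 * M + 1 ≤ p)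
    (N F : ℕ → ℕ) (hN : ∀ r, 1 ≤ r → r < M → N (r + 1) ≤ N r) (hNM : 1 ≤ N M)
    (hs : 2 * N 1 + 1 ≤ p)
    (hF : ∀ r r', 1 ≤ r → r ≤ M → 1 ≤ r' → r' ≤ M → min p (N r + N r' - 1) ≤ F (r + r' - 1))
    (ht : q * p < ∑ r ∈ Icc 1 M, N r) :
    (2 * q + 1) * p ≤ ∑ k ∈ Icc 1 (2 * M - 1), F k := by
  obtain ⟨m, rfl⟩ : ∃ m, M = m + 1 := ⟨M - 1, by omega⟩
  have hle : ∀ r, r ≤ m → N (r + 1) ≤ N 1 := by
    intro r
    induction r with
    | zero => intro _; exact le_rfl
    | succ r ih =>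
      intro h
      exact (hN (r + 1) (by omega) (by omega)).trans (ih (by omega))
  have hge : ∀ j, ∀ r, r + j = m → 1 ≤ N (r + 1) := by
    intro j
    induction j with
    | zero =>
      intro r h
      have : r = m := by omega
      rw [this]
      exact hNM
    | succ j ih =>
      intro r h
      exact (ih (r + 1) (by omega)).trans (hN (r + 1) (by omega) (by omega))
  have hge' : ∀ r, r ≤ m → 1 ≤ N (r + 1) := fun r h => hge (m - r) r (by omega)
  have hF' : ∀ i j, i ≤ m → j ≤ m → N (i + 1) + N (j + 1) ≤ F (i + j + 1) + 1 := by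
    intro i j hi hj
    have h1 := hF (i + 1) (j + 1) (by omega) (by omega) (by omega) (by omega)
    have h2 := hle i hi
    have h3 := hle j hj
    have e : i + 1 + (j + 1) - 1 = i + j + 1 := by omega
    rw [e, min_eq_right (by omega)] at h1
    omega
  rw [icc_range] at ht ⊢
  obtain ⟨t, htd⟩ : ∃ t, t = ∑ i ∈ range (m + 1), N (i + 1) := ⟨_, rfl⟩
  obtain ⟨s, hsd⟩ : ∃ s, s = N 1 := ⟨_, rfl⟩
  rw [← htd] at ht
  have t1 : t = ∑ i ∈ range m, N (i + 1) + N (m + 1) := by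
    rw [htd, Finset.sum_range_succ]
  have t2 : t = ∑ i ∈ range m, N (i + 1 + 1) + s := by
    rw [htd, Finset.sum_range_succ', hsd]
  have t3 : t ≤ (m + 1) * s := by
    rw [htd, hsd]
    refine (Finset.sum_le_card_nsmul _ _ (N 1) (fun i hi => hle i ?_)).trans ?_
    · have := Finset.mem_range.1 hi
      omega
    · rw [Finset.card_range, smul_eq_mul]
  have e2 : 2 * (m + 1) - 1 = 2 * m + 1 := by omega
  rw [e2]
  obtain ⟨S, hS⟩ : ∃ S, S = ∑ i ∈ range (2 * m + 1), F (i + 1) := ⟨_, rfl⟩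
  rw [← hS]
  -- first bound
  have b1 : 2 * t + (2 * t) ≤ S + (m + 1) + m + s + N (m + 1) := by
    have h1 : 2 * t ≤ ∑ i ∈ range (m + 1), F (2 * i + 1) + (m + 1) := by
      have : ∑ i ∈ range (m + 1), 2 * N (i + 1) ≤ ∑ i ∈ range (m + 1), (F (2 * i + 1) + 1) := by
        refine Finset.sum_le_sum (fun i hi => ?_)
        have hi' := Finset.mem_range.1 hi
        have h := hF' i i (by omega) (by omega)
        have e : i + i + 1 = 2 * i + 1 := by ring
        rw [e] at h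
        omega
      rw [← Finset.mul_sum, ← htd, Finset.sum_add_distrib] at this
      simpa using this
    have h2 : ∑ i ∈ range m, N (i + 1) + ∑ i ∈ range m, N (i + 1 + 1) ≤
        ∑ i ∈ range m, F (2 * i + 2) + m := by
      have : ∑ i ∈ range m, (N (i + 1) + N (i + 1 + 1)) ≤
          ∑ i ∈ range m, (F (2 * i + 2) + 1) := by
        refine Finset.sum_le_sum (fun i hi => ?_)
        have hi' := Finset.mem_range.1 hi
        have h := hF' i (i + 1) (by omega) (by omega)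
        have e : i + (i + 1) + 1 = 2 * i + 2 := by ring
        rw [e] at h
        exact h
      rw [Finset.sum_add_distrib, Finset.sum_add_distrib] at this
      simpa using this
    rw [split_odd] at hS
    omega
  have b1' : 4 * t ≤ S + 2 * (m + 1) + 2 * s := by
    have := hle m le_rfl
    omega
  have b1'' : 4 * t + 1 ≤ S + 2 * (m + 1) + 2 * s := by
    have := hle m le_rfl
    omega
  -- second bound
  have b2 : 2 * t + (m + 1) * s ≤ S + (m + 1) + s := by
    have h1 : t + (m + 1) * s ≤ ∑ i ∈ range (m + 1), F (i + 1) + (m + 1) := by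
      have : ∑ i ∈ range (m + 1), (N (i + 1) + s) ≤ ∑ i ∈ range (m + 1), (F (i + 1) + 1) := by
        refine Finset.sum_le_sum (fun i hi => ?_)
        have hi' := Finset.mem_range.1 hi
        have h := hF' i 0 (by omega) (by omega)
        rw [zero_add, ← hsd, add_zero] at h
        exact h
      rw [Finset.sum_add_distrib, Finset.sum_add_distrib, ← htd] at this
      simpa using this
    have h2 : ∑ i ∈ range m, N (i + 1 + 1) ≤ ∑ i ∈ range m, F (m + 1 + i + 1) := by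
      refine Finset.sum_le_sum (fun i hi => ?_)
      have hi' := Finset.mem_range.1 hi
      have h := hF' (i + 1) m (by omega) (by omega)
      have e : i + 1 + m + 1 = m + 1 + i + 1 := by ring
      rw [e] at h
      omega
    have e3 : 2 * m + 1 = (m + 1) + m := by ring
    rw [e3, Finset.sum_range_add] at hS
    omega
  have hs3 : 1 ≤ s := by
    rw [hsd]
    exact hge' 0 (by omega)
  by_contra hcon
  push Not at hcon
  -- linear bookkeeping
  obtain ⟨X, hX⟩ : ∃ X, X = (m + 1) * s := ⟨_, rfl⟩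
  rw [← hX] at b2 t3
  rw [← hsd] at hs
  have hq1 : q = 1 := by
    by_contra hq1
    have h2 : 2 ≤ q := by omega
    obtain ⟨Y, hY⟩ : ∃ Y, Y = q * p := ⟨_, rfl⟩
    have e4 : (2 * q + 1) * p = 2 * Y + p := by rw [hY]; ring
    rw [e4] at hcon
    rw [← hY] at ht
    have h3 : 2 * p ≤ Y := by rw [hY]; exact Nat.mul_le_mul_right p h2
    omega
  subst hq1
  have e5 : (2 * 1 + 1) * p = 3 * p := by ring
  rw [e5] at hcon
  rw [one_mul] at ht
  have hs4 : 3 ≤ s := by
    by_contra h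
    have h5 : (m + 1) * s ≤ (m + 1) * 2 := Nat.mul_le_mul_left _ (by omega)
    omega
  have hm : 2 ≤ m := by omega
  have hX2 : 3 * (m + 1) + 3 * s ≤ X + 9 := by
    rw [hX]
    obtain ⟨a, ha⟩ : ∃ a, m = a + 2 := ⟨m - 2, by omega⟩
    obtain ⟨b, hb⟩ : ∃ b, s = b + 3 := ⟨s - 3, by omega⟩
    rw [ha, hb]
    nlinarith [Nat.zero_le (a * b)]
  omega

end Pool.Agent.Helper27.EA
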