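import Pool.Agent.Helper27.EA.Level
import Pool.Agent.Helper27.EA.Avg
import Pool.Agent.Helper27.EA.RowsA
import Pool.Agent.Helper27.EA.RowsB

/-!
# EA-08 CaseAB: groups of order `p²`, cases (a) and (b)

`|G| = p²`, `q p < |A|`, `D = A - A`. Every line `L = ⟨x⟩` has index `p` (`card_line`, `card_quot`).
* `case_a`: the line `⟨y⟩` is contained in `D`, so `|inH D ⟨y⟩| = p` (`card_line`). `line_ge`: every line has `|inH D ⟨x⟩| ≥ 2 q + 1`. `line_bound_out` with `r = 2 q`: `2 q (p² - p) ≤ (p - 1) (|D| - p)`, so `|D| ≥ p + 2 q p`.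
* `case_b`: `M` is the largest slice along `⟨y⟩`, `q + 2 ≤ M`, `2 M + 1 ≤ p`. Apply `rowsA` or `rowsB` (`p` is odd; `2 N 1 ≥ p + 1` or `2 N 1 + 1 ≤ p`) to `N r = lev A ⟨y⟩ r`, `F k = lev (A - A) ⟨y⟩ k` (`lev_cd`: `r + r' ≤ 2 M ≤ p`; `lev_sum`, `lev_anti`, `lev_pos`,
  `lev_le_index`), then `lev_le` with `K = 2 M - 1`.
-/

set_option autoImplicit false

open Finset
open scoped Pointwise

namespace Pool.Agent.Helper27.EA

section
open Classical
variable {p : ℕ} {G : Type*} [AddCommGroup G] [Finite G]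

theorem case_a (hp : p.Prime) (hG : ∀ g : G, p • g = 0) (hcard : Nat.card G = p ^ 2)
    (A : Finset G) {q : ℕ} (hq : 2 * q + 1 ≤ p) (ht : q * p < A.card) {y : G} (hy : y ≠ 0)
    (hfull : ∀ x ∈ AddSubgroup.zmultiples y, x ∈ A - A) : (2 * q + 1) * p ≤ (A - A).card := by
  have hline : ∀ x : G, x ≠ 0 → Nat.card (G ⧸ AddSubgroup.zmultiples x) = p := by
    intro x hx
    have h1 : Nat.card (AddSubgroup.zmultiples x) = p ^ 1 := by
      rw [pow_one]
      exact card_line hp hG hx
    have h2 := card_quot (k := 1) hp (AddSubgroup.zmultiples x) h1 (by rw [hcard])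
    rwa [pow_one] at h2
  have hL : (inH (A - A) (AddSubgroup.zmultiples y)).card = p := by
    have h1 : ((inH (A - A) (AddSubgroup.zmultiples y) : Finset G) : Set G)
        = (AddSubgroup.zmultiples y : Set G) := by
      ext x
      rw [mem_coe, mem_inH, SetLike.mem_coe]
      exact ⟨fun h => h.2, fun h => ⟨hfull x h, h⟩⟩
    rw [← Set.ncard_coe_finset, h1]
    exact card_line hp hG hy
  have hb := line_bound_out hp hG hcard (A - A) hy (2 * q) (fun x hx => by
    have hx0 : x ≠ 0 := by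
      rintro rfl
      exact hx (AddSubgroup.zero_mem _)
    have h1 := line_ge (q := q) hp hG A (AddSubgroup.zmultiples x) (by rw [hline x hx0]; exact ht)
    rwa [min_eq_right hq] at h1)
  rw [hL] at hb
  have hle : p ≤ (A - A).card := by
    rw [← hL]
    exact card_le_card (inH_subset _ _)
  have hp2 := hp.two_le
  obtain ⟨m, hm⟩ : ∃ m, (A - A).card = p + m := ⟨(A - A).card - p, by omega⟩
  rw [hm, Nat.add_sub_cancel_left] at hb
  have h3 : p ^ 2 - p = (p - 1) * p := by
    rw [Nat.sub_mul, one_mul, sq]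
  have h4 : (p - 1) * (2 * q * p) ≤ (p - 1) * m := by
    calc (p - 1) * (2 * q * p) = 2 * q * (p ^ 2 - p) := by rw [h3]; ring
      _ ≤ _ := hb
  have h5 := Nat.le_of_mul_le_mul_left h4 (by omega)
  rw [hm]
  calc (2 * q + 1) * p = p + 2 * q * p := by ring
    _ ≤ p + m := by omega

theorem case_b (hp : p.Prime) (hG : ∀ g : G, p • g = 0) (hcard : Nat.card G = p ^ 2)
    (A : Finset G) {q M : ℕ} (hq : 1 ≤ q) (hM : q + 2 ≤ M) (hMp : 2 * M + 1 ≤ p)
    (ht : q * p < A.card) {y : G} (hy : y ≠ 0)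
    (hmax : ∀ c, (sl A (AddSubgroup.zmultiples y) c).card ≤ M)
    (hex : ∃ c, (sl A (AddSubgroup.zmultiples y) c).card = M) :
    (2 * q + 1) * p ≤ (A - A).card := by
  have hquot : Nat.card (G ⧸ AddSubgroup.zmultiples y) = p := by
    have h1 : Nat.card (AddSubgroup.zmultiples y) = p ^ 1 := by
      rw [pow_one]
      exact card_line hp hG hy
    have h2 := card_quot (k := 1) hp (AddSubgroup.zmultiples y) h1 (by rw [hcard])
    rwa [pow_one] at h2
  obtain ⟨c0, hc0⟩ := hex
  have hlev : ∀ r, r ≤ M → 1 ≤ lev A (AddSubgroup.zmultiples y) r := fun r hr =>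
    lev_pos A _ c0 (by omega)
  have hsum := lev_sum A (AddSubgroup.zmultiples y) hmax
  have hN1 : lev A (AddSubgroup.zmultiples y) 1 ≤ p := by
    have h := lev_le_index A (AddSubgroup.zmultiples y) 1
    rwa [hquot] at h
  have hF : ∀ r r', 1 ≤ r → r ≤ M → 1 ≤ r' → r' ≤ M →
      min p (lev A (AddSubgroup.zmultiples y) r + lev A (AddSubgroup.zmultiples y) r' - 1)
        ≤ lev (A - A) (AddSubgroup.zmultiples y) (r + r' - 1) := fun r r' h1 h2 h3 h4 =>
    lev_cd hp hG A _ h1 h3 (by omega) (hlev r h2) (hlev r' h4)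
  have ht' : q * p < ∑ r ∈ Icc 1 M, lev A (AddSubgroup.zmultiples y) r := by
    rw [hsum]
    exact ht
  have hfin := lev_le (A - A) (AddSubgroup.zmultiples y) (2 * M - 1)
  refine le_trans ?_ hfin
  have hodd : p % 2 = 1 := by
    rcases hp.eq_two_or_odd with h | h
    · omega
    · exact h
  by_cases hs : p + 1 ≤ 2 * lev A (AddSubgroup.zmultiples y) 1
  · exact rowsA hq hM hMp (fun r => lev A (AddSubgroup.zmultiples y) r)
      (fun k => lev (A - A) (AddSubgroup.zmultiples y) k) (fun r _ _ => lev_anti A _ r)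
      (hlev M le_rfl) hN1 hs (fun k _ => lev_anti (A - A) _ k) hF ht'
  · exact rowsB hodd hq hM hMp (fun r => lev A (AddSubgroup.zmultiples y) r)
      (fun k => lev (A - A) (AddSubgroup.zmultiples y) k) (fun r _ _ => lev_anti A _ r)
      (hlev M le_rfl) (by omega) hF ht'

end

end Pool.Agent.Helper27.EA
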