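import Pool.Agent.Helper27.EA.Basic

/-!
# EA-01 Cd: Cauchy-Davenport in groups of prime exponent (Mathlib)

`cauchy_davenport_minOrder_add` (Mathlib) with `AddMonoid.minOrder G ≥ p` (`AddMonoid.le_minOrder`; a nonzero `g` with `p • g = 0` has additive order `p`: `addOrderOf_eq_prime`). `cd_sub`: `S - T = S + (-T)`, `Finset.card_neg`.
-/

set_option autoImplicit false

open Finset
open scoped Pointwise

namespace Pool.Agent.Helper27.EA

private theorem cd_aux {p : ℕ} (hp : p.Prime) {G : Type*} [AddCommGroup G]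
    (hG : ∀ g : G, p • g = 0) : (p : ℕ∞) ≤ AddMonoid.minOrder G := by
  have h1 : Fact p.Prime := ⟨hp⟩
  rw [AddMonoid.le_minOrder]
  intro g hg _
  rw [addOrderOf_eq_prime (hG g) hg]

theorem cd {p : ℕ} (hp : p.Prime) {G : Type*} [AddCommGroup G] [DecidableEq G]
    (hG : ∀ g : G, p • g = 0) {S T : Finset G} (hS : S.Nonempty) (hT : T.Nonempty) :
    min p (S.card + T.card - 1) ≤ (S + T).card := by
  have h1 := cauchy_davenport_minOrder_add hS hT
  have h2 := cd_aux hp hG
  have h3 : min (p : ℕ∞) ((S.card + T.card - 1 : ℕ) : ℕ∞) ≤ ((S + T).card : ℕ∞) :=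
    le_trans (min_le_min h2 le_rfl) h1
  rw [min_le_iff, Nat.cast_le, Nat.cast_le] at h3
  rw [min_le_iff]
  exact h3

theorem cd_sub {p : ℕ} (hp : p.Prime) {G : Type*} [AddCommGroup G] [DecidableEq G]
    (hG : ∀ g : G, p • g = 0) {S T : Finset G} (hS : S.Nonempty) (hT : T.Nonempty) :
    min p (S.card + T.card - 1) ≤ (S - T).card := by
  have h1 := cd hp hG hS hT.neg
  rw [Finset.card_neg] at h1
  rw [sub_eq_add_neg]
  exact h1

end Pool.Agent.Helper27.EA
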