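import Pool.Agent.Helper27.EA.Level

/-!
# EA-09 Moment: the second moment of the slices over all lines, `|G| = p²`

`nmax A x k` is the number of cosets of `⟨x⟩` whose slice has exactly `k` elements.
* For every `x ≠ 0` with all slices `≤ k = q + 1`: `∑ c, a_c ^ 2 ≤ q t + (q + 1) n` where `a_c = |sl A ⟨x⟩ c|`, `t = ∑ a_c = |A|`, `n = nmax A x (q + 1)`: for `a ≤ q`: `a ^ 2 ≤ q a` (so `a ^ 2 ≤ q a + 0`), for `a = q + 1`: `a ^ 2 = q a + (q + 1)`.
* `∑ x ≠ 0, ∑ c, a_c ^ 2 = #{(x, u, v) | x ≠ 0, u, v ∈ A, u - v ∈ ⟨x⟩} = t (p² - 1) + (t² - t) (p - 1) = (p - 1) (t² + p t)`: for `u = v` all `x ≠ 0`, for `u ≠ v` the `x ∈ ⟨u - v⟩ \ {0}` (`mem_line`, `card_line`).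
-/

set_option autoImplicit false

open Finset
open scoped Pointwise

namespace Pool.Agent.Helper27.EA

section
open Classical
variable {p : ℕ} {G : Type*} [AddCommGroup G] [Fintype G]

/-- the number of cosets of `⟨x⟩` whose slice has exactly `k` elements -/
noncomputable def nmax (A : Finset G) (x : G) (k : ℕ) : ℕ :=
  {c : G ⧸ AddSubgroup.zmultiples x | (sl A (AddSubgroup.zmultiples x) c).card = k}.ncard

private theorem sum_sl (A : Finset G) (H : AddSubgroup G) [Fintype (G ⧸ H)] :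
    ∑ c : G ⧸ H, (sl A H c).card = A.card := by
  rw [card_eq_sum_card_fiberwise (f := fun a => (QuotientAddGroup.mk a : G ⧸ H)) (t := univ)
    (fun _ _ => mem_coe.2 (mem_univ _))]
  rfl

private theorem sum_sq (A : Finset G) (H : AddSubgroup G) [Fintype (G ⧸ H)] :
    ∑ c : G ⧸ H, (sl A H c).card * (sl A H c).card =
      ((A ×ˢ A).filter (fun w : G × G => w.1 - w.2 ∈ H)).card := by
  rw [card_eq_sum_card_fiberwise (f := fun w : G × G => (QuotientAddGroup.mk w.1 : G ⧸ H))
    (t := univ) (fun _ _ => mem_coe.2 (mem_univ _))]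
  refine sum_congr rfl fun c _ => ?_
  rw [← card_product]
  congr 1
  ext ⟨u, v⟩
  rw [mem_product, mem_filter, mem_filter, mem_product, mem_sl, mem_sl]
  constructor
  · rintro ⟨⟨h1, h2⟩, h3, h4⟩
    refine ⟨⟨⟨h1, h3⟩, ?_⟩, h2⟩
    exact QuotientAddGroup.eq_iff_sub_mem.1 (h2.trans h4.symm)
  · rintro ⟨⟨⟨h1, h3⟩, h4⟩, h2⟩
    exact ⟨⟨h1, h2⟩, h3, (QuotientAddGroup.eq_iff_sub_mem.2 h4).symm.trans h2⟩

private theorem one_line (A : Finset G) (x : G) {q : ℕ}
    (hmax : ∀ c, (sl A (AddSubgroup.zmultiples x) c).card ≤ q + 1) :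
    ((A ×ˢ A).filter (fun w : G × G => w.1 - w.2 ∈ AddSubgroup.zmultiples x)).card ≤
      q * A.card + (q + 1) * nmax A x (q + 1) := by
  have : Fintype (G ⧸ AddSubgroup.zmultiples x) := Fintype.ofFinite _
  rw [← sum_sq, ← sum_sl A (AddSubgroup.zmultiples x), mul_sum]
  have hn : nmax A x (q + 1) = (univ.filter (fun c : G ⧸ AddSubgroup.zmultiples x =>
      (sl A (AddSubgroup.zmultiples x) c).card = q + 1)).card := by
    unfold nmax
    rw [← Set.ncard_coe_finset]
    congr 1
    ext c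
    simp
  rw [hn, card_filter, mul_sum, ← sum_add_distrib]
  refine sum_le_sum fun c _ => ?_
  by_cases h : (sl A (AddSubgroup.zmultiples x) c).card = q + 1
  · rw [if_pos h, h]
    apply le_of_eq
    ring
  · rw [if_neg h, mul_zero, add_zero]
    have h1 := hmax c
    have h2 : (sl A (AddSubgroup.zmultiples x) c).card ≤ q := by omega
    exact Nat.mul_le_mul_right _ h2

private theorem pair_count (hp : p.Prime) (hG : ∀ g : G, p • g = 0) (hcard : Nat.card G = p ^ 2)
    (d : G) : (p - 1) + (if d = 0 then p * p - p else 0) ≤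
      ((univ.erase (0 : G)).filter (fun x => d ∈ AddSubgroup.zmultiples x)).card := by
  have hp1 : 1 ≤ p := hp.one_lt.le
  by_cases hd : d = 0
  · rw [if_pos hd]
    have h1 : (univ.erase (0 : G)).filter (fun x => d ∈ AddSubgroup.zmultiples x) =
        univ.erase (0 : G) := by
      apply filter_true_of_mem
      intro x _
      rw [hd]
      exact zero_mem _
    rw [h1, card_erase_of_mem (mem_univ _), card_univ, ← Nat.card_eq_fintype_card, hcard, pow_two]
    have h2 : p ≤ p * p := Nat.le_mul_of_pos_left _ (by omega)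
    omega
  · rw [if_neg hd, add_zero]
    have h1 : (univ.filter (fun x : G => x ∈ AddSubgroup.zmultiples d)).card = p := by
      rw [← card_line hp hG hd, Nat.card_eq_fintype_card, Fintype.card_subtype]
    have h2 : ((univ.filter (fun x : G => x ∈ AddSubgroup.zmultiples d)).erase 0).card = p - 1 := by
      rw [card_erase_of_mem (by simp), h1]
    rw [← h2]
    refine card_le_card fun x hx => ?_
    rw [mem_erase, mem_filter] at hx
    rw [mem_filter, mem_erase]
    exact ⟨⟨hx.1, mem_univ _⟩, mem_line hp hG hx.1 hx.2.2⟩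

theorem moment (hp : p.Prime) (hG : ∀ g : G, p • g = 0) (hcard : Nat.card G = p ^ 2)
    (A : Finset G) {q : ℕ}
    (hmax : ∀ x : G, x ≠ 0 → ∀ c, (sl A (AddSubgroup.zmultiples x) c).card ≤ q + 1) :
    (p - 1) * (A.card * (A.card + p)) ≤
      ∑ x ∈ univ.erase (0 : G), (q * A.card + (q + 1) * nmax A x (q + 1)) := by
  have h1 : ∑ x ∈ univ.erase (0 : G),
      ((A ×ˢ A).filter (fun w : G × G => w.1 - w.2 ∈ AddSubgroup.zmultiples x)).card ≤
      ∑ x ∈ univ.erase (0 : G), (q * A.card + (q + 1) * nmax A x (q + 1)) := by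
    refine sum_le_sum fun x hx => one_line A x (hmax x ?_)
    exact (mem_erase.1 hx).1
  refine le_trans ?_ h1
  have h2 : ∑ x ∈ univ.erase (0 : G),
      ((A ×ˢ A).filter (fun w : G × G => w.1 - w.2 ∈ AddSubgroup.zmultiples x)).card =
      ∑ w ∈ A ×ˢ A, ((univ.erase (0 : G)).filter
        (fun x => w.1 - w.2 ∈ AddSubgroup.zmultiples x)).card := by
    simp only [card_filter]
    rw [sum_comm]
  rw [h2]
  have h3 : ∑ w ∈ A ×ˢ A, ((p - 1) + (if w.1 - w.2 = 0 then p * p - p else 0)) ≤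
      ∑ w ∈ A ×ˢ A, ((univ.erase (0 : G)).filter
        (fun x => w.1 - w.2 ∈ AddSubgroup.zmultiples x)).card :=
    sum_le_sum fun w _ => pair_count hp hG hcard (w.1 - w.2)
  refine le_trans (le_of_eq ?_) h3
  rw [sum_product]
  have h4 : ∀ u ∈ A, ∑ v ∈ A, ((p - 1) + (if u - v = 0 then p * p - p else 0)) =
      (p - 1) * (A.card + p) := by
    intro u hu
    rw [sum_add_distrib, sum_const, smul_eq_mul]
    have h5 : ∑ v ∈ A, (if u - v = 0 then p * p - p else 0) = p * p - p := by
      have h6 : ∀ v ∈ A, (if u - v = 0 then p * p - p else 0) =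
          (if u = v then p * p - p else 0) := by
        intro v _
        simp only [sub_eq_zero]
      rw [sum_congr rfl h6, sum_ite_eq, if_pos hu]
    rw [h5]
    obtain ⟨r, rfl⟩ : ∃ r, p = r + 1 := ⟨p - 1, by have := hp.one_lt; omega⟩
    have h7 : (r + 1) * (r + 1) - (r + 1) = r * (r + 1) := by
      rw [Nat.sub_eq_iff_eq_add (Nat.le_mul_of_pos_left _ (by omega))]
      ring
    rw [h7, Nat.add_sub_cancel]
    ring
  rw [sum_congr rfl h4, sum_const, smul_eq_mul]
  ring

end

end Pool.Agent.Helper27.EA
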