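import Pool.Agent.Helper27.EA.CaseAB
import Pool.Agent.Helper27.EA.Moment

/-!
# EA-10 Dim2: `|A - A| ≥ (2 q + 1) p` in groups of order `p²`

* `case_c`: all slices of all lines have at most `q + 1` elements, `2 q + 3 ≤ p`. If `2 nmax A x (q + 1) ≤ p - 1` for all `x ≠ 0`, then `moment` gives (there are `p² - 1` elements `x ≠ 0`): `(p - 1) t (t + p) ≤ (p² - 1) (q t + (q + 1) (p - 1) / 2)`, i.e.
  `2 t (t + p) ≤ (p + 1) (2 q t + (q + 1) (p - 1))`, i.e. `2 t (t + p - (p + 1) q) ≤ (q + 1) (p² - 1)`. With `t ≥ q p + 1` (the left side is increasing) `2 (q p + 1) (p + 1 - q) ≤ (q + 1) (p² - 1)`, but the difference left minus right is `(q - 1) p (p - 2 q) + 2 p + 3 - q > 0`.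
  So some `x ≠ 0` has `2 n ≥ p + 1` with `n = nmax A x (q + 1) = lev A ⟨x⟩ (q + 1)`. `lev_cd` with `r = r' = q + 1` (`2 q + 2 ≤ p`): `lev (A - A) ⟨x⟩ (2 q + 1) ≥ min p (2 n - 1) = p`, and all `lev (A - A) ⟨x⟩ k ≥ p` for `k ≤ 2 q + 1` (`lev_anti`), `lev_le` with `K = 2 q + 1`.
* `dim2`: every slice count: `exists_sl`: for every `x ≠ 0` the largest slice `M_x ≥ q + 1`. If some slice `S` of some line has `2 |S| > p`: `line_full`, `case_a`. Otherwise all slices have `2 |S| + 1 ≤ p` (`p` odd, as `2 q + 1 < p`). If some slice has `≥ q + 2` elements take the largest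
  slice along this line: `case_b`. Otherwise `case_c` (`2 q + 3 ≤ p` because `2 (q + 1) + 1 ≤ p`).
-/

set_option autoImplicit false

open Finset
open scoped Pointwise

namespace Pool.Agent.Helper27.EA

section
open Classical
variable {p : ℕ} {G : Type*} [AddCommGroup G] [Finite G]

private theorem c_arith {p q t : ℕ} (hq : 1 ≤ q) (hqp : 2 * q + 3 ≤ p) (ht : q * p < t)
    (h : 2 * ((p - 1) * (t * (t + p))) ≤ (p ^ 2 - 1) * (2 * (q * t) + (q + 1) * (p - 1))) : False := by
  obtain ⟨m, rfl⟩ : ∃ m, p = m + 1 := ⟨p - 1, by omega⟩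
  rw [Nat.add_sub_cancel] at h
  have e1 : (m + 1) ^ 2 - 1 = m * (m + 2) := by
    have : (m + 1) ^ 2 = m * (m + 2) + 1 := by ring
    omega
  rw [e1] at h
  have h1 : m * (2 * (t * (t + (m + 1)))) ≤ m * ((m + 2) * (2 * (q * t) + (q + 1) * m)) := by
    calc m * (2 * (t * (t + (m + 1)))) = 2 * (m * (t * (t + (m + 1)))) := by ring
      _ ≤ _ := h
      _ = m * ((m + 2) * (2 * (q * t) + (q + 1) * m)) := by ring
  have h2 := Nat.le_of_mul_le_mul_left h1 (by omega)
  obtain ⟨s, rfl⟩ : ∃ s, t = q * (m + 1) + 1 + s := ⟨t - (q * (m + 1) + 1), by omega⟩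
  obtain ⟨r, rfl⟩ : ∃ r, m = 2 * q + 2 + r := ⟨m - (2 * q + 2), by omega⟩
  obtain ⟨u, rfl⟩ : ∃ u, q = u + 1 := ⟨q - 1, by omega⟩
  zify at h2
  nlinarith [mul_nonneg (Int.natCast_nonneg s) (Int.natCast_nonneg u),
    mul_nonneg (Int.natCast_nonneg s) (Int.natCast_nonneg r),
    mul_nonneg (Int.natCast_nonneg u) (Int.natCast_nonneg r),
    mul_nonneg (Int.natCast_nonneg s) (Int.natCast_nonneg s),
    mul_nonneg (Int.natCast_nonneg r) (Int.natCast_nonneg r),
    mul_nonneg (Int.natCast_nonneg u) (Int.natCast_nonneg u),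
    mul_nonneg (mul_nonneg (Int.natCast_nonneg s) (Int.natCast_nonneg u)) (Int.natCast_nonneg r),
    mul_nonneg (mul_nonneg (Int.natCast_nonneg s) (Int.natCast_nonneg u)) (Int.natCast_nonneg u),
    mul_nonneg (mul_nonneg (Int.natCast_nonneg u) (Int.natCast_nonneg u)) (Int.natCast_nonneg r),
    mul_nonneg (mul_nonneg (Int.natCast_nonneg u) (Int.natCast_nonneg r)) (Int.natCast_nonneg r),
    mul_nonneg (mul_nonneg (Int.natCast_nonneg u) (Int.natCast_nonneg u)) (Int.natCast_nonneg u)]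

theorem case_c (hp : p.Prime) (hG : ∀ g : G, p • g = 0) (hcard : Nat.card G = p ^ 2)
    (A : Finset G) {q : ℕ} (hq : 1 ≤ q) (hqp : 2 * q + 3 ≤ p) (ht : q * p < A.card)
    (hmax : ∀ x : G, x ≠ 0 → ∀ c, (sl A (AddSubgroup.zmultiples x) c).card ≤ q + 1) :
    (2 * q + 1) * p ≤ (A - A).card := by
  have hfin : Fintype G := Fintype.ofFinite G
  obtain ⟨x, hx, hxn⟩ : ∃ x : G, x ≠ 0 ∧ p - 1 < 2 * nmax A x (q + 1) := by
    by_contra hcon
    push Not at hcon
    have h1 := moment hp hG hcard A hmax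
    have h2 : 2 * ∑ x ∈ univ.erase (0 : G), (q * A.card + (q + 1) * nmax A x (q + 1)) ≤
        (p ^ 2 - 1) * (2 * (q * A.card) + (q + 1) * (p - 1)) := by
      have h3 : (univ.erase (0 : G)).card = p ^ 2 - 1 := by
        rw [card_erase_of_mem (mem_univ _), card_univ, ← Nat.card_eq_fintype_card, hcard]
      rw [← h3, mul_sum]
      refine (sum_le_card_nsmul _ _ (2 * (q * A.card) + (q + 1) * (p - 1)) fun x hx => ?_).trans
        (smul_eq_mul _ _).le
      have h4 := hcon x (ne_of_mem_erase hx)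
      have h5 := Nat.mul_le_mul_left (q + 1) h4
      calc 2 * (q * A.card + (q + 1) * nmax A x (q + 1)) =
          2 * (q * A.card) + (q + 1) * (2 * nmax A x (q + 1)) := by ring
        _ ≤ _ := Nat.add_le_add_left h5 _
    exact c_arith hq hqp ht ((Nat.mul_le_mul_left 2 h1).trans h2)
  have hn : nmax A x (q + 1) = lev A (AddSubgroup.zmultiples x) (q + 1) := by
    unfold nmax lev
    congr 1
    ext c
    exact ⟨fun h => (Eq.symm h).le, fun h => le_antisymm (hmax x hx c) h⟩
  rw [hn] at hxn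
  have hodd : p % 2 = 1 := by
    rcases hp.eq_two_or_odd with h | h
    · omega
    · exact h
  have hl := lev_cd hp hG A (AddSubgroup.zmultiples x) (r := q + 1) (r' := q + 1) (by omega) (by omega)
    (by omega) (by omega) (by omega)
  rw [min_eq_left (by omega)] at hl
  have hanti : Antitone (fun k => lev (A - A) (AddSubgroup.zmultiples x) k) :=
    antitone_nat_of_succ_le fun k => lev_anti _ _ k
  have hs := lev_le (A - A) (AddSubgroup.zmultiples x) (2 * q + 1)
  refine le_trans ?_ hs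
  have hc : (Icc 1 (2 * q + 1)).card = 2 * q + 1 := by
    rw [Nat.card_Icc]
    omega
  calc (2 * q + 1) * p = ∑ _k ∈ Icc 1 (2 * q + 1), p := by rw [sum_const, hc, smul_eq_mul]
    _ ≤ _ := sum_le_sum fun k hk => by
      rw [mem_Icc] at hk
      exact hl.trans (hanti (by omega))

theorem dim2 (hp : p.Prime) (hG : ∀ g : G, p • g = 0) (hcard : Nat.card G = p ^ 2)
    (A : Finset G) {q : ℕ} (hq : 1 ≤ q) (hqp : 2 * q + 1 < p) (ht : q * p < A.card) :
    (2 * q + 1) * p ≤ (A - A).card := by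
  have hodd : p % 2 = 1 := by
    rcases hp.eq_two_or_odd with h | h
    · omega
    · exact h
  by_cases h1 : ∃ y : G, y ≠ 0 ∧ ∃ c, p < 2 * (sl A (AddSubgroup.zmultiples y) c).card
  · obtain ⟨y, hy, c, hc⟩ := h1
    exact case_a hp hG hcard A hqp.le ht hy
      (line_full hp hG A (AddSubgroup.zmultiples y) (card_line hp hG hy) c hc)
  push Not at h1
  by_cases h2 : ∃ y : G, y ≠ 0 ∧ ∃ c, q + 2 ≤ (sl A (AddSubgroup.zmultiples y) c).card
  · obtain ⟨y, hy, c, hc⟩ := h2
    obtain ⟨c0, hc0⟩ := Finite.exists_max fun c => (sl A (AddSubgroup.zmultiples y) c).card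
    have h3 := h1 y hy c0
    exact case_b hp hG hcard A hq (hc.trans (hc0 c)) (by omega) ht hy hc0 ⟨c0, rfl⟩
  push Not at h2
  obtain ⟨x, hx⟩ : ∃ x : G, x ≠ 0 := by
    have h3 : 1 < Nat.card G := by
      rw [hcard]
      exact one_lt_pow₀ hp.one_lt (by norm_num)
    have h4 : Nontrivial G := Finite.one_lt_card_iff_nontrivial.1 h3
    exact exists_ne 0
  have h5 : Nat.card (G ⧸ AddSubgroup.zmultiples x) = p := by
    have := card_quot hp (i := 1) (k := 1) (AddSubgroup.zmultiples x)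
      (by rw [pow_one]; exact card_line hp hG hx) hcard
    rwa [pow_one] at this
  obtain ⟨c, hc⟩ := exists_sl A (AddSubgroup.zmultiples x) (q := q) (by rw [h5]; exact ht)
  have h6 := h1 x hx c
  exact case_c hp hG hcard A hq (by omega) ht fun y hy c => by
    have := h2 y hy c
    omega

end

end Pool.Agent.Helper27.EA
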