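import Pool.Agent.Helper27.EA.Upper

/-!
# EA-18 Excep: necessity and sufficiency

* `not_asym_low`: `A` not asymmetric: `hfold h (pm A) ⊆ signedSumset h A` (`hfold_sym_subset_signed`), `|pm A| ≥ |A|`, `sym_low`.
* `excep_low`: an exceptional `A` (neither symmetric nor near-symmetric nor asymmetric) has `|pm A| ≥ m + 2` and `m ≥ 3`, and `p ≠ 2` (for `p = 2` every set is symmetric): see the beginning of `forward` in `Helper25/SignedMin/Main.lean` (elements `x, y ∈ A` with `-x, -y ∉ A`, `x ≠ y`, and `z ∈ A` with `-z ∈ A`).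
* `excep_need`: exceptional `A` with `|signedSumset h A| = rhoPM`; `rhoPM ≤ u = min p (h q + 1) p ^ j` (`rho_upper`), `|pm A| ≥ m + 2`, `|hfold h (pm A)| ≤ |signedSumset h A|`. If `m + 2 > (q + 1) p ^ j` and `q + 1 < p`: `sym_low` with `q + 1` (`|pm A| ≥ m + 2 > (q + 1) p ^ j`):
  `min p (h (q + 1) + 1) p ^ j ≤ u`, so `p ≤ h q + 1`. If `m + 2 > (q + 1) p ^ j` and `q + 1 = p`: then `p ≤ h q + 1` anyway. If `m + 2 > p ^ (j + 1)`: `|pm A| ≥ m + 2 > p ^ (j + 1) ≥ u`, but `|pm A| ≤ |hfold h (pm A)| ≤ u`, contradiction. And `rhoPM = |signedSumset h A| ≥ u` (`not_asym_low`).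
* `excep_suff`: `backward` (Helper25) with `d = p ^ j` (`h q + 1 ≤ p`, `m + 2 ≤ (q + 1) p ^ j`, `cdiv m d = q + 1`; realised: `|K| = p ^ j`, `g ∉ K` of order `p` in the quotient) or `d = p ^ (j + 1)` (`p ≤ h q + 1`, `m + 2 ≤ p ^ (j + 1)`, `cdiv = 1`; realised with `g = 0`). `TwoCond`: `p ^ (j + 1)` is not a
  power of two for odd `p`, and `m ≤ p ^ j` is false.
-/

set_option autoImplicit false

open Finset
open scoped Pointwise

namespace Pool.Agent.Helper27.EA

open Pool.Agent.Helper25.SignedMin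

section
open Classical
variable {p : ℕ} {G : Type*} [AddCommGroup G] [Fintype G]

omit [Fintype G] in
private lemma card_le_hfold (B : Finset G) (hB : B.Nonempty) (n : ℕ) :
    B.card ≤ (hfold (n + 1) B).card := by
  rw [hfold_succ]
  exact card_le_card_add_right (hfold_nonempty n hB)

private lemma hfold_pm_le {h : ℕ} (A : Finset G) (hA : ¬ IsAsymmetric A) :
    (hfold h (pm A)).card ≤ (signedSumset h A).ncard := by
  rw [← Set.ncard_coe_finset]
  exact Set.ncard_le_ncard (hfold_sym_subset_signed hA (fun b hb => mem_pm.1 hb) _)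
    (Set.toFinite _)

private lemma subset_pm (A : Finset G) : A ⊆ pm A := fun _ ha => mem_pm.2 (Or.inl ha)

theorem not_asym_low (hp : p.Prime) (hG : ∀ g : G, p • g = 0) {h j q : ℕ} (hh : 2 ≤ h) (hq : 1 ≤ q)
    (hqp : q < p) (A : Finset G) (hA : ¬ IsAsymmetric A) (ht : q * p ^ j < A.card) :
    min p (h * q + 1) * p ^ j ≤ (signedSumset h A).ncard := by
  exact le_trans (sym_low hp hG hq hqp (pm A) pm_neg
    (lt_of_lt_of_le ht (card_le_card (subset_pm A))) hh) (hfold_pm_le A hA)

theorem excep_need (hp : p.Prime) (hG : ∀ g : G, p • g = 0) {m h j q : ℕ} (hh : 2 ≤ h) (hq : 1 ≤ q)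
    (hqp : q < p) (hmG : m ≤ Nat.card G) (h1 : q * p ^ j < m) (h2 : m ≤ (q + 1) * p ^ j)
    (hex : HasExceptionalMinimiser G m h) :
    p ≠ 2 ∧ 3 ≤ m ∧ (m + 2 ≤ (q + 1) * p ^ j ∨ (p ≤ h * q + 1 ∧ m + 2 ≤ p ^ (j + 1))) ∧
      rhoPM G m h = min p (h * q + 1) * p ^ j := by
  obtain ⟨A, hAm, hs, hn, ha, hmin⟩ := hex
  have hpj : 0 < p ^ j := pow_pos hp.pos _
  have hs0 := hs
  unfold IsSymmetric at hs
  push Not at hs
  obtain ⟨x, hxA, hnx⟩ := hs
  obtain ⟨y, hyA, hyx, hny⟩ : ∃ y ∈ A, y ≠ x ∧ -y ∉ A := by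
    by_contra hcon
    push Not at hcon
    apply hn
    refine ⟨fun h => hnx (h x hxA), x, hxA, ?_⟩
    intro b hb hbx
    refine ⟨hcon b hb hbx, ?_⟩
    intro h
    apply hnx
    rw [← h, neg_neg]
    exact hb
  have ha' := ha
  unfold IsAsymmetric at ha'
  push Not at ha'
  obtain ⟨z, hzA, hnz⟩ := ha'
  have hm3 : 3 ≤ m := by
    have hzx : z ≠ x := by
      rintro rfl
      exact hnx hnz
    have hzy : z ≠ y := by
      rintro rfl
      exact hny hnz
    have hsub : ({x, y, z} : Finset G) ⊆ A := by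
      intro w hw
      simp only [mem_insert, mem_singleton] at hw
      rcases hw with rfl | rfl | rfl <;> assumption
    have h3 : ({x, y, z} : Finset G).card = 3 := by
      rw [card_eq_three]
      exact ⟨x, y, z, hyx.symm, hzx.symm, hzy.symm, rfl⟩
    have := card_le_card hsub
    omega
  have hp2 : p ≠ 2 := by
    rintro rfl
    apply hs0
    intro a haA
    have h2a := hG a
    rw [two_nsmul] at h2a
    rw [neg_eq_of_add_eq_zero_left h2a]
    exact haA
  have hBcard : m + 2 ≤ (pm A).card := by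
    have h1 : insert (-x) (insert (-y) A) ⊆ pm A := by
      intro w hw
      rw [mem_insert, mem_insert] at hw
      rcases hw with rfl | rfl | h
      · exact pm_neg x (subset_pm A hxA)
      · exact pm_neg y (subset_pm A hyA)
      · exact subset_pm A h
    have h2 : (insert (-x) (insert (-y) A)).card = m + 2 := by
      rw [card_insert_of_notMem, card_insert_of_notMem hny, hAm]
      rw [mem_insert, not_or]
      exact ⟨fun h => hyx (neg_injective h).symm, hnx⟩
    rw [← h2]
    exact card_le_card h1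
  have hup := rho_upper hp hG hh hq hqp hmG h1 h2
  have hlow := not_asym_low hp hG hh hq hqp A ha (by rw [hAm]; exact h1)
  have hrho : rhoPM G m h = min p (h * q + 1) * p ^ j := by
    apply le_antisymm hup
    rw [← hmin]
    exact hlow
  have hfm := hfold_pm_le (h := h) A ha
  rw [hmin, hrho] at hfm
  refine ⟨hp2, hm3, ?_, hrho⟩
  by_cases hc : m + 2 ≤ (q + 1) * p ^ j
  · exact Or.inl hc
  · right
    push Not at hc
    constructor
    · by_contra hcon
      push Not at hcon
      have hq1 : q + 1 < p := by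
        have : 1 * q ≤ h * q := Nat.mul_le_mul_right _ (by omega)
        omega
      have h5 := sym_low hp hG (by omega : 1 ≤ q + 1) hq1 (pm A) pm_neg
        (lt_of_lt_of_le hc hBcard) hh
      have h6 := le_of_mul_le_mul_right (h5.trans hfm) hpj
      have h7 : h * (q + 1) = h * q + h := by ring
      rw [h7] at h6
      rcases le_total p (h * q + h + 1) with h8 | h8
      · rw [min_eq_left h8] at h6
        have := h6.trans (min_le_right _ _)
        omega
      · rw [min_eq_right h8] at h6
        have := h6.trans (min_le_right _ _)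
        omega
    · by_contra hcon
      push Not at hcon
      obtain ⟨h', rfl⟩ : ∃ h', h = h' + 1 := ⟨h - 1, by omega⟩
      have h5 := card_le_hfold (pm A) ⟨x, subset_pm A hxA⟩ h'
      have h6 : min p ((h' + 1) * q + 1) * p ^ j ≤ p ^ (j + 1) := by
        rw [pow_succ, mul_comm (p ^ j) p]
        exact Nat.mul_le_mul_right _ (min_le_left _ _)
      omega

theorem excep_suff (hp : p.Prime) (hG : ∀ g : G, p • g = 0) {m h j q : ℕ} (hh : 2 ≤ h) (hq : 1 ≤ q)
    (hqp : q < p) (hmG : m ≤ Nat.card G) (h1 : q * p ^ j < m) (h2 : m ≤ (q + 1) * p ^ j)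
    (hp2 : p ≠ 2) (hm : 3 ≤ m)
    (hc : m + 2 ≤ (q + 1) * p ^ j ∨ (p ≤ h * q + 1 ∧ m + 2 ≤ p ^ (j + 1)))
    (hr : rhoPM G m h = min p (h * q + 1) * p ^ j) : HasExceptionalMinimiser G m h := by
  have hpj : 0 < p ^ j := pow_pos hp.pos _
  have hlow : p ^ j < m := by
    refine lt_of_le_of_lt ?_ h1
    exact Nat.le_mul_of_pos_left _ (by omega)
  have hm0 : 0 < m := by omega
  by_cases hcase : h * q + 1 ≤ p ∧ m + 2 ≤ (q + 1) * p ^ j
  · -- `d = p ^ j`
    obtain ⟨hhq, hsl⟩ := hcase
    have hcd : cdiv m (p ^ j) = q + 1 := by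
      apply le_antisymm
      · rw [cdiv_le_iff hpj, mul_comm]
        exact h2
      · by_contra hcon
        have hcon' : cdiv m (p ^ j) ≤ q := by omega
        rw [cdiv_le_iff hpj, mul_comm] at hcon'
        omega
    have hfv : fval m h (p ^ j) = rhoPM G m h := by
      rw [fval_eq hm0 hpj, hcd, hr, min_eq_right hhq, Nat.add_sub_cancel, mul_comm]
    apply backward hm hh hfv
    · rw [hcd, mul_comm]
      exact hsl
    · obtain ⟨K, hK⟩ := exists_sub hp hG (i := j) (by omega)
      obtain ⟨g, hg⟩ : ∃ g : G, g ∉ K := by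
        by_contra hcon
        push Not at hcon
        have : K = ⊤ := by
          rw [eq_top_iff]
          exact fun g _ => hcon g
        rw [this, AddSubgroup.card_top] at hK
        omega
      have hgo : addOrderOf (QuotientAddGroup.mk' K g) = p := by
        have := Fact.mk hp
        apply addOrderOf_eq_prime (quot_exp hG K _)
        intro h0
        apply hg
        rwa [← AddMonoidHom.mem_ker, QuotientAddGroup.ker_mk'] at h0
      refine ⟨K, g, hK, ?_⟩
      rw [hgo, mul_comm]
      refine h2.trans (Nat.mul_le_mul_right _ ?_)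
      omega
    · intro h5
      omega
  · -- `d = p ^ (j + 1)`
    have hcc : p ≤ h * q + 1 ∧ m + 2 ≤ p ^ (j + 1) := by
      rcases hc with h5 | h5
      · refine ⟨?_, ?_⟩
        · by_contra hcon
          exact hcase ⟨by omega, h5⟩
        · refine h5.trans ?_
          rw [pow_succ, mul_comm (p ^ j) p]
          exact Nat.mul_le_mul_right _ (by omega)
      · exact h5
    obtain ⟨hhq, hsl⟩ := hcc
    have hmd : m ≤ p ^ (j + 1) := by omega
    apply backward (d := p ^ (j + 1)) hm hh
    · rw [fval_of_le hm0 hmd, hr, min_eq_left hhq, pow_succ, mul_comm]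
    · rw [cdiv_eq_one hm0 hmd, mul_one]
      exact hsl
    · have hle : p ^ (j + 1) ≤ Nat.card G := by
        obtain ⟨n, hn⟩ := card_pow hp hG
        rw [hn]
        apply Nat.pow_le_pow_right hp.pos
        by_contra hcon
        have : p ^ n ≤ p ^ j := Nat.pow_le_pow_right hp.pos (by omega)
        omega
      obtain ⟨K, hK⟩ := exists_sub hp hG (i := j + 1) hle
      refine ⟨K, 0, hK, ?_⟩
      rw [map_zero, addOrderOf_zero, mul_one]
      exact hmd
    · rintro _ ⟨i, hi⟩
      exfalso
      apply hp2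
      have h5 : p ∣ 2 ^ i := by
        rw [← hi]
        exact dvd_pow_self p (by omega)
      exact (Nat.prime_dvd_prime_iff_eq hp Nat.prime_two).1 (hp.dvd_of_dvd_pow h5)

end

end Pool.Agent.Helper27.EA
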