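import Pool.Agent.Helper27.EA.Excep
import Pool.Agent.Helper27.EA.AsymBd
import Pool.Agent.Helper27.EA.AsymFour

/-!
# EA-19 Final: assembly
-/

set_option autoImplicit false

open Finset
open scoped Pointwise

namespace Pool.Agent.Helper27.EA

open Pool.Agent.Helper25.SignedMin

section
open Classical
variable {p : ℕ} {G : Type*} [AddCommGroup G] [Fintype G]

theorem rho_ge {m h v : ℕ} (hmG : m ≤ Nat.card G)
    (hv : ∀ A : Finset G, A.card = m → v ≤ (signedSumset h A).ncard) : v ≤ rhoPM G m h := by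
  obtain ⟨A, -, hA⟩ := Finset.exists_subset_card_eq (s := (univ : Finset G)) (n := m) (by
    rw [Finset.card_univ, ← Nat.card_eq_fintype_card]
    exact hmG)
  refine le_csInf ⟨_, A, hA, rfl⟩ ?_
  rintro k ⟨A', hA', rfl⟩
  exact hv A' hA'

theorem rho_val (hp : p.Prime) (hG : ∀ g : G, p • g = 0) {m h j q : ℕ} (hh : 2 ≤ h) (hq : 1 ≤ q)
    (hqp : q < p) (hmG : m ≤ Nat.card G) (h1 : q * p ^ j < m) (h2 : m ≤ (q + 1) * p ^ j)
    (h4 : h ≤ 4) : rhoPM G m h = if h = 2 ∧ 2 * q + 1 = p ∧ 2 * m < p ^ (j + 1) then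
      p ^ (j + 1) - 1 else min p (h * q + 1) * p ^ j := by
  have hup := rho_upper hp hG hh hq hqp hmG h1 h2
  split_ifs with hc
  · obtain ⟨rfl, hc2, hc3⟩ := hc
    refine le_antisymm (rho_upper_two hp hG hq hc2 hmG h1 hc3) (rho_ge hmG fun A hA => ?_)
    have e : min p (2 * q + 1) * p ^ j = p ^ (j + 1) := by
      rw [hc2, min_self, pow_succ, mul_comm]
    by_cases hAs : IsAsymmetric A
    · have := (asym_two hp hG hq hqp A hAs (by rw [hA]; exact h1)).1
      rwa [e] at this
    · have := not_asym_low hp hG (le_refl 2) hq hqp A hAs (by rw [hA]; exact h1)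
      rw [e] at this
      omega
  · refine le_antisymm hup (rho_ge hmG fun A hA => ?_)
    by_cases hAs : IsAsymmetric A
    · have h1' : q * p ^ j < A.card := by rw [hA]; exact h1
      interval_cases h
      · refine (asym_two hp hG hq hqp A hAs h1').2 ?_
        by_contra hno
        push Not at hno
        apply hc
        refine ⟨rfl, hno.1, ?_⟩
        have hodd : p ^ (j + 1) % 2 = 1 := by
          have : Odd p := ⟨q, hno.1.symm⟩
          exact Nat.odd_iff.1 this.pow
        have := hno.2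
        rw [hA] at this
        omega
      · exact asym_three hp hG hq hqp A hAs h1'
      · rcases Nat.eq_zero_or_pos j with hj | hj
        · subst hj
          rw [pow_zero, mul_one] at h1' ⊢
          exact asym_one hp hG hq A h1' (by norm_num)
        · exact asym_four hp hG hj hq hqp A hAs h1'
    · exact not_asym_low hp hG hh hq hqp A hAs (by rw [hA]; exact h1)

theorem final (hp : p.Prime) (hG : ∀ g : G, p • g = 0) {m h j q : ℕ} (hh : 2 ≤ h) (hq : 1 ≤ q)
    (hqp : q < p) (hmG : m ≤ Nat.card G) (h1 : q * p ^ j < m) (h2 : m ≤ (q + 1) * p ^ j) :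
    (HasExceptionalMinimiser G m h ↔ p ≠ 2 ∧ 3 ≤ m ∧
      (m + 2 ≤ (q + 1) * p ^ j ∨ (p ≤ h * q + 1 ∧ m + 2 ≤ p ^ (j + 1))) ∧
      rhoPM G m h = min p (h * q + 1) * p ^ j) ∧
    (h ≤ 4 → rhoPM G m h = if h = 2 ∧ 2 * q + 1 = p ∧ 2 * m < p ^ (j + 1) then
      p ^ (j + 1) - 1 else min p (h * q + 1) * p ^ j) :=
  ⟨⟨excep_need hp hG hh hq hqp hmG h1 h2, fun hx =>
    excep_suff hp hG hh hq hqp hmG h1 h2 hx.1 hx.2.1 hx.2.2.1 hx.2.2.2⟩,
    rho_val hp hG hh hq hqp hmG h1 h2⟩

end

end Pool.Agent.Helper27.EA
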