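import Pool.Agent.Helper27.EA.Final

/-!
# EA-20 FinalB: the value of `rhoPM` when the ordinary sumset bound is attained; final statement
-/

set_option autoImplicit false

open Finset
open scoped Pointwise

namespace Pool.Agent.Helper27.EA

open Pool.Agent.Helper25.SignedMin

section
open Classical
variable {p : ℕ} {G : Type*} [AddCommGroup G] [Fintype G]

theorem rho_val_high (hp : p.Prime) (hG : ∀ g : G, p • g = 0) {m h j q : ℕ} (hh : 2 ≤ h)
    (hq : 1 ≤ q) (hqp : q < p) (hmG : m ≤ Nat.card G) (h1 : q * p ^ j < m)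
    (h2 : m ≤ (q + 1) * p ^ j)
    (hc : ∀ i, i < j → min p (h * q + 1) * p ^ j ≤ fval m h (p ^ i)) :
    rhoPM G m h = min p (h * q + 1) * p ^ j := by
  have hm0 : 0 < m := by omega
  refine le_antisymm (rho_upper hp hG hh hq hqp hmG h1 h2) (rho_ge hmG fun A hA => ?_)
  obtain ⟨d, hd, hle⟩ := lower hm0 (by omega : 0 < h) A hA
  refine le_trans ?_ (hle.trans (ncard_signed_ge h A))
  obtain ⟨n, hn⟩ := card_pow hp hG
  rw [hn] at hd
  obtain ⟨i, -, rfl⟩ := (Nat.dvd_prime_pow hp).1 hd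
  have hpi : 0 < p ^ i := Nat.pow_pos hp.pos
  rcases lt_trichotomy i j with hij | rfl | hij
  · exact hc i hij
  · rw [fval_eq hm0 hpi]
    have hcd : q < cdiv m (p ^ i) := by
      by_contra hcon
      push Not at hcon
      rw [cdiv_le_iff hpi, mul_comm] at hcon
      omega
    have : q ≤ cdiv m (p ^ i) - 1 := by omega
    calc min p (h * q + 1) * p ^ i ≤ (h * q + 1) * p ^ i := Nat.mul_le_mul_right _ (min_le_right _ _)
      _ = p ^ i * (h * q + 1) := mul_comm _ _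
      _ ≤ p ^ i * (h * (cdiv m (p ^ i) - 1) + 1) := by gcongr
  · rw [fval_eq hm0 hpi]
    calc min p (h * q + 1) * p ^ j ≤ p * p ^ j := Nat.mul_le_mul_right _ (min_le_left _ _)
      _ = p ^ (j + 1) := by rw [pow_succ, mul_comm]
      _ ≤ p ^ i := Nat.pow_le_pow_right hp.pos hij
      _ = p ^ i * 1 := (mul_one _).symm
      _ ≤ p ^ i * (h * (cdiv m (p ^ i) - 1) + 1) := Nat.mul_le_mul_left _ (by omega)

/-- the form `q p ^ j < m ≤ (q + 1) p ^ j` -/
theorem exists_form (hp : p.Prime) {m : ℕ} (hm : 2 ≤ m) :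
    ∃ j q : ℕ, 1 ≤ q ∧ q < p ∧ q * p ^ j < m ∧ m ≤ (q + 1) * p ^ j := by
  have h1p : 1 < p := hp.one_lt
  set j := Nat.log p (m - 1) with hj
  have hlo : p ^ j ≤ m - 1 := Nat.pow_log_le_self p (by omega)
  have hhi : m - 1 < p ^ (j + 1) := Nat.lt_pow_succ_log_self h1p (m - 1)
  have hpj : 0 < p ^ j := Nat.pow_pos hp.pos
  refine ⟨j, (m - 1) / p ^ j, ?_, ?_, ?_, ?_⟩
  · exact (Nat.one_le_div_iff hpj).2 hlo
  · rw [Nat.div_lt_iff_lt_mul hpj]
    rw [pow_succ, mul_comm] at hhi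
    exact hhi
  · have := Nat.div_mul_le_self (m - 1) (p ^ j)
    omega
  · have := Nat.lt_div_mul_add (a := m - 1) hpj
    rw [Nat.add_mul, Nat.one_mul]
    omega

theorem final_b (hp : p.Prime) (hG : ∀ g : G, p • g = 0) {m h j q : ℕ} (hh : 2 ≤ h) (hq : 1 ≤ q)
    (hqp : q < p) (hmG : m ≤ Nat.card G) (h1 : q * p ^ j < m) (h2 : m ≤ (q + 1) * p ^ j)
    (hc : h ≤ 4 ∨ ∀ i, i < j → min p (h * q + 1) * p ^ j ≤ fval m h (p ^ i)) :
    (rhoPM G m h = if h = 2 ∧ 2 * q + 1 = p ∧ 2 * m < p ^ (j + 1) then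
      p ^ (j + 1) - 1 else min p (h * q + 1) * p ^ j) ∧
    (HasExceptionalMinimiser G m h ↔ p ≠ 2 ∧ 3 ≤ m ∧
      (m + 2 ≤ (q + 1) * p ^ j ∨ (p ≤ h * q + 1 ∧ m + 2 ≤ p ^ (j + 1))) ∧
      ¬ (h = 2 ∧ 2 * q + 1 = p ∧ 2 * m < p ^ (j + 1))) := by
  have hval : rhoPM G m h = if h = 2 ∧ 2 * q + 1 = p ∧ 2 * m < p ^ (j + 1) then
      p ^ (j + 1) - 1 else min p (h * q + 1) * p ^ j := by
    rcases hc with hc | hc
    · exact rho_val hp hG hh hq hqp hmG h1 h2 hc
    · rw [rho_val_high hp hG hh hq hqp hmG h1 h2 hc]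
      rw [if_neg]
      rintro ⟨rfl, hqp', hm⟩
      rcases Nat.eq_zero_or_pos j with hj | hj
      · subst hj
        rw [pow_zero, mul_one] at h1
        rw [zero_add, pow_one] at hm
        omega
      · have h3 := hc 0 hj
        rw [pow_zero, fval_eq (by omega) (by omega), hqp', min_self, mul_comm, ← pow_succ] at h3
        have h4 : cdiv m 1 ≤ m := by
          rw [cdiv_le_iff (by omega)]
          omega
        omega
  refine ⟨hval, ?_⟩
  rw [(final hp hG hh hq hqp hmG h1 h2).1, hval]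
  refine and_congr_right fun _ => and_congr_right fun _ => and_congr_right fun _ => ?_
  split_ifs with hif
  · constructor
    · intro h3
      exfalso
      obtain ⟨rfl, hqp', -⟩ := hif
      rw [hqp', min_self, mul_comm, ← pow_succ] at h3
      have : 0 < p ^ (j + 1) := Nat.pow_pos hp.pos
      omega
    · intro h3
      exact absurd hif h3
  · exact ⟨fun _ => hif, fun _ => rfl⟩

end

end Pool.Agent.Helper27.EA
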