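import Pool.Agent.Helper27.EA.Basic

/-!
# EA-02 Grp: subgroups of groups of prime exponent

* `card_pow`: `G` is a `p`-group (`IsAddPGroup`/`exists_prime_addOrderOf_dvd_card`: every prime divisor of `|G|` is `p`; or `Nat.eq_prime_pow_of_unique_prime_dvd`; or `Module (ZMod p) G` via `AddCommGroup.zmodModule` and `Module.card_eq_pow_finrank`).
* `card_line`: `Nat.card_zmultiples`, `addOrderOf_eq_prime`. `card_plane`: `zmultiples x ⊓ zmultiples y = ⊥` for `x ≠ 0`, `y ∉ zmultiples x` (a nonzero element of a group of order `p` generates it), the map `(a, b) ↦ a + b` from the product of the two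
  subgroups onto the join is injective (or: the quotient of the join by `zmultiples x` is generated by the image of `y ≠ 0`, so it has order `p`).
* `mem_plane`: if `d ∈ zmultiples y ⊔ zmultiples x`, `d ∉ zmultiples y`, then `x ∈ zmultiples y ⊔ zmultiples d`: `d = a y + b x` with `b` prime to `p`.
* `card_quot`: `AddSubgroup.card_eq_card_quotient_mul_card_addSubgroup`. `exists_sub`: `exists_subgroup_card` (Helper25) with `card_pow`. `quot_exp`, `sub_exp`: clear.
-/

set_option autoImplicit false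

open Finset
open scoped Pointwise

namespace Pool.Agent.Helper27.EA

variable {p : ℕ} {G : Type*} [AddCommGroup G]

theorem card_pow (hp : p.Prime) (hG : ∀ g : G, p • g = 0) [Finite G] : ∃ n, Nat.card G = p ^ n := by
  refine ⟨_, Nat.eq_prime_pow_of_unique_prime_dvd Nat.card_pos.ne' ?_⟩
  intro q hq hd
  have h1 : Fact q.Prime := ⟨hq⟩
  obtain ⟨g, hg⟩ := exists_prime_addOrderOf_dvd_card' (G := G) q hd
  have h2 : q ∣ p := by
    rw [← hg]
    exact addOrderOf_dvd_of_nsmul_eq_zero (hG g)
  exact (Nat.prime_dvd_prime_iff_eq hq hp).1 h2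

theorem card_line (hp : p.Prime) (hG : ∀ g : G, p • g = 0) {x : G} (hx : x ≠ 0) :
    Nat.card (AddSubgroup.zmultiples x) = p := by
  have h1 : Fact p.Prime := ⟨hp⟩
  rw [Nat.card_zmultiples]
  exact addOrderOf_eq_prime (hG x) hx

theorem mem_line (hp : p.Prime) (hG : ∀ g : G, p • g = 0) {x d : G} (hd : d ≠ 0)
    (h : d ∈ AddSubgroup.zmultiples x) : x ∈ AddSubgroup.zmultiples d := by
  have hx : x ≠ 0 := by
    rintro rfl
    rw [AddSubgroup.zmultiples_zero_eq_bot, AddSubgroup.mem_bot] at h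
    exact hd h
  have h1 : AddSubgroup.zmultiples d ≤ AddSubgroup.zmultiples x := by
    rw [AddSubgroup.zmultiples_le]
    exact h
  have h2 : Finite (AddSubgroup.zmultiples x) := by
    refine Nat.finite_of_card_ne_zero ?_
    rw [card_line hp hG hx]
    exact hp.ne_zero
  have h3 : AddSubgroup.zmultiples d = AddSubgroup.zmultiples x := by
    refine AddSubgroup.eq_of_le_of_card_ge h1 ?_
    rw [card_line hp hG hx, card_line hp hG hd]
  rw [h3]
  exact AddSubgroup.mem_zmultiples x

theorem card_plane (hp : p.Prime) (hG : ∀ g : G, p • g = 0) [Finite G] {x y : G} (hx : x ≠ 0)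
    (hy : y ∉ AddSubgroup.zmultiples x) :
    Nat.card (AddSubgroup.zmultiples x ⊔ AddSubgroup.zmultiples y : AddSubgroup G) = p ^ 2 := by
  have hy0 : y ≠ 0 := by
    rintro rfl
    exact hy (AddSubgroup.zero_mem _)
  have h1 : AddSubgroup.zmultiples y ⊓ AddSubgroup.zmultiples x = ⊥ := by
    rw [AddSubgroup.eq_bot_iff_forall]
    intro g hg
    rw [AddSubgroup.mem_inf] at hg
    by_contra hg0
    have h2 := mem_line hp hG hg0 hg.1
    have h3 : AddSubgroup.zmultiples g ≤ AddSubgroup.zmultiples x := by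
      rw [AddSubgroup.zmultiples_le]
      exact hg.2
    exact hy (h3 h2)
  have h4 : (AddSubgroup.zmultiples y).relIndex (AddSubgroup.zmultiples x ⊔ AddSubgroup.zmultiples y) = p := by
    rw [AddSubgroup.relIndex_sup_right, ← AddSubgroup.inf_relIndex_right, h1, AddSubgroup.relIndex_bot_left,
      card_line hp hG hx]
  have h5 : Nat.card (AddSubgroup.zmultiples y) *
      (AddSubgroup.zmultiples y).relIndex (AddSubgroup.zmultiples x ⊔ AddSubgroup.zmultiples y) =
      Nat.card (AddSubgroup.zmultiples x ⊔ AddSubgroup.zmultiples y : AddSubgroup G) := by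
    have h6 := AddSubgroup.relIndex_mul_relIndex ⊥ (AddSubgroup.zmultiples y)
      (AddSubgroup.zmultiples x ⊔ AddSubgroup.zmultiples y) bot_le le_sup_right
    rw [AddSubgroup.relIndex_bot_left, AddSubgroup.relIndex_bot_left] at h6
    exact h6
  rw [← h5, h4, card_line hp hG hy0, sq]

theorem mem_plane (hp : p.Prime) (hG : ∀ g : G, p • g = 0) {x y d : G}
    (hd : d ∉ AddSubgroup.zmultiples y)
    (h : d ∈ AddSubgroup.zmultiples y ⊔ AddSubgroup.zmultiples x) :
    x ∈ AddSubgroup.zmultiples y ⊔ AddSubgroup.zmultiples d := by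
  rw [AddSubgroup.mem_sup] at h
  obtain ⟨u, hu, v, hv, huv⟩ := h
  have hv0 : v ≠ 0 := by
    rintro rfl
    rw [add_zero] at huv
    exact hd (huv ▸ hu)
  have h1 : x ∈ AddSubgroup.zmultiples v := mem_line hp hG hv0 hv
  have h2 : AddSubgroup.zmultiples v ≤ AddSubgroup.zmultiples y ⊔ AddSubgroup.zmultiples d := by
    rw [AddSubgroup.zmultiples_le]
    have h3 : v = -u + d := by rw [← huv]; abel
    rw [h3]
    exact AddSubgroup.add_mem_sup (AddSubgroup.neg_mem _ hu) (AddSubgroup.mem_zmultiples d)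
  exact h2 h1

theorem card_quot (hp : p.Prime) [Finite G] {i k : ℕ} (H : AddSubgroup G) (hH : Nat.card H = p ^ i)
    (hn : Nat.card G = p ^ (i + k)) : Nat.card (G ⧸ H) = p ^ k := by
  have h1 := AddSubgroup.card_eq_card_quotient_mul_card_addSubgroup H
  rw [hn, hH, pow_add, mul_comm] at h1
  exact (Nat.eq_of_mul_eq_mul_right (pow_pos hp.pos i) h1).symm

theorem quot_exp (hG : ∀ g : G, p • g = 0) (H : AddSubgroup G) : ∀ g : G ⧸ H, p • g = 0 := by
  intro g
  obtain ⟨a, rfl⟩ := QuotientAddGroup.mk_surjective g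
  rw [← QuotientAddGroup.mk_nsmul, hG a]
  rfl

theorem sub_exp (hG : ∀ g : G, p • g = 0) (H : AddSubgroup G) : ∀ g : H, p • g = 0 := by
  intro g
  apply Subtype.ext
  rw [AddSubgroup.coe_nsmul, hG]
  rfl

theorem exists_sub (hp : p.Prime) (hG : ∀ g : G, p • g = 0) [Finite G] {i : ℕ}
    (hi : p ^ i ≤ Nat.card G) : ∃ K : AddSubgroup G, Nat.card K = p ^ i := by
  obtain ⟨n, hn⟩ := card_pow hp hG
  have h1 : i ≤ n := by
    rw [hn] at hi
    exact (Nat.pow_le_pow_iff_right hp.one_lt).1 hi
  refine Pool.Agent.Helper25.SignedMin.exists_subgroup_card _ G rfl _ ?_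
  rw [hn]
  exact pow_dvd_pow p h1

end Pool.Agent.Helper27.EA
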