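import Pool.Agent.Helper27.EA.Slice

/-!
# EA-07 Level: level counts of the slices

`H` has index a prime `p` (or only: `G ⧸ H` has exponent `p`), `lev A H r` is the number of cosets `c` with `r ≤ |sl A H c|`.
* `lev_sum`: layer cake: `∑ c, |sl A H c| = |A|` and `|sl A H c| = #{r ∈ [1, M] | r ≤ |sl A H c|}` for `|sl A H c| ≤ M`; exchange sums (`Set.ncard_eq_toFinset_card'`, `Finset.sum_comm`).
* `lev_le`: the same with `min K |sl D H c| ≤ |sl D H c|`.
* `lev_cd`: `T_r = {c | r ≤ |sl A H c|}` as a finset of `G ⧸ H`; for `z = c - c' ∈ T_r - T_r'` the set `sl (A - A) H z` contains `sl A H c - sl A H c'` (`sl_sub_sl`), of size `≥ min p (r + r' - 1) = r + r' - 1` (`cd_sub` in `G`, monotone, `r + r' ≤ p`). So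
  `T_r - T_r' ⊆ {z | r + r' - 1 ≤ |sl (A - A) H z|}` and `cd_sub` in `G ⧸ H` (`quot_exp`) gives the bound.
* `lev_anti`, `lev_pos`: clear.
-/

set_option autoImplicit false

open Finset
open scoped Pointwise

namespace Pool.Agent.Helper27.EA

section
open Classical
variable {p : ℕ} {G : Type*} [AddCommGroup G] [Finite G]

/-- the number of cosets whose slice has at least `r` elements -/
noncomputable def lev (A : Finset G) (H : AddSubgroup G) (r : ℕ) : ℕ :=
  {c : G ⧸ H | r ≤ (sl A H c).card}.ncard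

private theorem lev_card (A : Finset G) (H : AddSubgroup G) [Fintype (G ⧸ H)] (r : ℕ) :
    lev A H r = (univ.filter (fun c : G ⧸ H => r ≤ (sl A H c).card)).card := by
  unfold lev
  have h : {c : G ⧸ H | r ≤ (sl A H c).card} =
      ((univ.filter (fun c : G ⧸ H => r ≤ (sl A H c).card) : Finset (G ⧸ H)) : Set (G ⧸ H)) := by
    ext c
    simp
  rw [h, Set.ncard_coe_finset]

private theorem lev_icc (K s : ℕ) : ((Icc 1 K).filter (fun k => k ≤ s)).card = min K s := by
  have h : (Icc 1 K).filter (fun k => k ≤ s) = Icc 1 (min K s) := by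
    ext k
    simp only [mem_filter, mem_Icc]
    omega
  rw [h, Nat.card_Icc]
  omega

private theorem lev_swap (A : Finset G) (H : AddSubgroup G) [Fintype (G ⧸ H)] (K : ℕ) :
    ∑ k ∈ Icc 1 K, lev A H k = ∑ c : G ⧸ H, min K (sl A H c).card := by
  have h1 : ∀ k ∈ Icc 1 K, lev A H k = ∑ c : G ⧸ H, if k ≤ (sl A H c).card then 1 else 0 := by
    intro k _
    rw [lev_card, card_filter]
  rw [sum_congr rfl h1, sum_comm]
  refine sum_congr rfl fun c _ => ?_
  rw [← card_filter, lev_icc]

private theorem lev_fib (A : Finset G) (H : AddSubgroup G) [Fintype (G ⧸ H)] :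
    ∑ c : G ⧸ H, (sl A H c).card = A.card := by
  rw [card_eq_sum_card_fiberwise (f := fun a : G => (QuotientAddGroup.mk a : G ⧸ H)) (s := A)
    (t := univ) (fun _ _ => mem_coe.mpr (mem_univ _))]
  rfl

theorem lev_sum (A : Finset G) (H : AddSubgroup G) {M : ℕ} (hM : ∀ c, (sl A H c).card ≤ M) :
    ∑ r ∈ Icc 1 M, lev A H r = A.card := by
  haveI : Fintype (G ⧸ H) := Fintype.ofFinite _
  rw [lev_swap, ← lev_fib A H]
  refine sum_congr rfl fun c _ => ?_
  exact min_eq_right (hM c)

theorem lev_le (D : Finset G) (H : AddSubgroup G) (K : ℕ) :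
    ∑ k ∈ Icc 1 K, lev D H k ≤ D.card := by
  haveI : Fintype (G ⧸ H) := Fintype.ofFinite _
  rw [lev_swap, ← lev_fib D H]
  exact sum_le_sum fun c _ => min_le_right _ _

theorem lev_anti (D : Finset G) (H : AddSubgroup G) (k : ℕ) : lev D H (k + 1) ≤ lev D H k := by
  unfold lev
  refine Set.ncard_le_ncard ?_ (Set.toFinite _)
  intro c hc
  have h : k + 1 ≤ (sl D H c).card := hc
  exact (Nat.le_succ k).trans h

theorem lev_pos (A : Finset G) (H : AddSubgroup G) {r : ℕ} (c : G ⧸ H)
    (hc : r ≤ (sl A H c).card) : 1 ≤ lev A H r := by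
  unfold lev
  exact (Set.ncard_pos (Set.toFinite _)).mpr ⟨c, hc⟩

theorem lev_le_index (A : Finset G) (H : AddSubgroup G) (r : ℕ) : lev A H r ≤ Nat.card (G ⧸ H) := by
  unfold lev
  rw [← Set.ncard_univ]
  exact Set.ncard_le_ncard (Set.subset_univ _) (Set.toFinite _)

theorem lev_cd (hp : p.Prime) (hG : ∀ g : G, p • g = 0) (A : Finset G) (H : AddSubgroup G)
    {r r' : ℕ} (hr : 1 ≤ r) (hr' : 1 ≤ r') (hrp : r + r' ≤ p) (h1 : 1 ≤ lev A H r)
    (h2 : 1 ≤ lev A H r') :
    min p (lev A H r + lev A H r' - 1) ≤ lev (A - A) H (r + r' - 1) := by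
  haveI : Fintype (G ⧸ H) := Fintype.ofFinite _
  rw [lev_card] at h1 h2
  have e1 := card_pos.mp h1
  have e2 := card_pos.mp h2
  have e3 := cd_sub hp (quot_exp hG H) e1 e2
  rw [lev_card, lev_card, lev_card]
  refine e3.trans (card_le_card ?_)
  intro z hz
  rw [mem_sub] at hz
  obtain ⟨c, hc, c', hc', rfl⟩ := hz
  rw [mem_filter] at hc hc' ⊢
  refine ⟨mem_univ _, ?_⟩
  have f1 : (sl A H c).Nonempty := card_pos.mp (by omega)
  have f2 : (sl A H c').Nonempty := card_pos.mp (by omega)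
  have f3 := cd_sub hp hG f1 f2
  have f4 := card_le_card (sl_sub_sl A H c c')
  have f5 := f3.trans f4
  have f6 := hc.2
  have f7 := hc'.2
  rcases le_total p ((sl A H c).card + (sl A H c').card - 1) with h | h
  · rw [min_eq_left h] at f5
    omega
  · rw [min_eq_right h] at f5
    omega

end

end Pool.Agent.Helper27.EA
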