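import Pool.Agent.Helper27.EA.Dim2

/-!
# EA-11 PlaneGe: differences in a subgroup of order `p²`

`exists_sl` (with `q * p` in place of `q`): a coset `c` of `V` with `q p < |sl A V c|`. Choose `a₀` in this slice; `S = {v : V | a₀ + v ∈ A}` (a finset of `V`, `Finset.univ.filter` or `preimage`), `|S| = |sl A V c|`. `dim2` in the group `V` (`sub_exp`) gives `|S - S| ≥ (2 q + 1) p`, and the
inclusion `V → G` maps `S - S` injectively into `inH (A - A) V` (`v - w = (a₀ + v) - (a₀ + w)`).
-/

set_option autoImplicit false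

open Finset
open scoped Pointwise

namespace Pool.Agent.Helper27.EA

section
open Classical
variable {p : ℕ} {G : Type*} [AddCommGroup G] [Finite G]

theorem plane_ge (hp : p.Prime) (hG : ∀ g : G, p • g = 0) (A : Finset G) (V : AddSubgroup G)
    (hV : Nat.card V = p ^ 2) {q : ℕ} (hq : 1 ≤ q) (hqp : 2 * q + 1 < p)
    (ht : q * p * Nat.card (G ⧸ V) < A.card) : (2 * q + 1) * p ≤ (inH (A - A) V).card := by
  obtain ⟨c, hc⟩ := exists_sl A V (q := q * p) ht
  have hne : (sl A V c).Nonempty := by
    rw [← card_pos]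
    omega
  obtain ⟨a₀, ha₀⟩ := hne
  rw [mem_sl] at ha₀
  have hfin : Fintype V := Fintype.ofFinite V
  have hcardS : (sl A V c).card ≤ (univ.filter (fun v : V => a₀ + (v : G) ∈ A)).card := by
    apply card_le_card_of_surjOn (fun v : V => a₀ + (v : G))
    intro a ha
    rw [mem_coe, mem_sl] at ha
    have hv : -a₀ + a ∈ V := by
      rw [← QuotientAddGroup.eq, ha₀.2, ha.2]
    refine ⟨⟨-a₀ + a, hv⟩, ?_, ?_⟩
    · rw [mem_coe, mem_filter]
      refine ⟨mem_univ _, ?_⟩
      change a₀ + (-a₀ + a) ∈ A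
      rw [add_neg_cancel_left]
      exact ha.1
    · change a₀ + (-a₀ + a) = a
      rw [add_neg_cancel_left]
  refine le_trans (dim2 (G := V) hp (sub_exp hG V) hV (univ.filter (fun v : V => a₀ + (v : G) ∈ A))
    hq hqp (lt_of_lt_of_le hc hcardS)) ?_
  apply card_le_card_of_injOn (fun v : V => (v : G))
  · intro v hv
    obtain ⟨a, ha, b, hb, rfl⟩ :=
      (@mem_sub V (fun a b => Classical.propDecidable (a = b)) _ _ _ _).1 (mem_coe.1 hv)
    rw [mem_filter] at ha hb
    rw [mem_coe, mem_inH]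
    refine ⟨?_, SetLike.coe_mem _⟩
    have he : ((a - b : V) : G) = (a₀ + (a : G)) - (a₀ + (b : G)) := by
      rw [AddSubgroup.coe_sub]
      abel
    change ((a - b : V) : G) ∈ A - A
    rw [he]
    exact sub_mem_sub ha.2 hb.2
  · intro a _ b _ hab
    exact Subtype.ext hab

end

end Pool.Agent.Helper27.EA
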