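import Pool.Agent.Helper27.EA.Cd
import Pool.Agent.Helper27.EA.Grp

/-!
# EA-03 Slice: slices of `A` and the part of `A - A` in a subgroup

* `exists_sl`: `A` is the disjoint union of its slices (`Finset.exists_lt_card_fiber_of_mul_lt_card_of_maps_to` or `card_eq_sum_card_fiberwise`).
* `line_ge`: a slice `S` with more than `q` elements (`exists_sl`), `S - S ⊆ inH (A - A) H` (`sl_sub_sl` with `c = c'`, `inH_eq`), `cd_sub`, `p ≤ 2 |S| - 1` or monotone.
* `line_full`: `S = sl A H c`, `p < 2 |S|`, `cd_sub`: `p ≤ |S - S| ≤ |inH (A - A) H| ≤ |H| = p`, so `inH (A - A) H` is all of `H`.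
-/

set_option autoImplicit false

open Finset
open scoped Pointwise

namespace Pool.Agent.Helper27.EA

section
open Classical
variable {p : ℕ} {G : Type*} [AddCommGroup G] [Finite G]

theorem exists_sl (A : Finset G) (H : AddSubgroup G) {q : ℕ} (h : q * Nat.card (G ⧸ H) < A.card) :
    ∃ c : G ⧸ H, q < (sl A H c).card := by
  by_contra hcon
  push Not at hcon
  have : Fintype (G ⧸ H) := Fintype.ofFinite _
  have hsub : A ⊆ (Finset.univ : Finset (G ⧸ H)).biUnion (fun c => sl A H c) := by
    intro a ha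
    rw [mem_biUnion]
    exact ⟨(QuotientAddGroup.mk a : G ⧸ H), mem_univ _, mem_sl.2 ⟨ha, rfl⟩⟩
  have h1 : A.card ≤ ∑ c : G ⧸ H, (sl A H c).card := (card_le_card hsub).trans card_biUnion_le
  have h2 : ∑ c : G ⧸ H, (sl A H c).card ≤ ∑ _c : G ⧸ H, q := sum_le_sum fun c _ => hcon c
  rw [sum_const, card_univ, smul_eq_mul, ← Nat.card_eq_fintype_card, mul_comm] at h2
  omega

private theorem diff_le (A : Finset G) (H : AddSubgroup G) (c : G ⧸ H) :
    (sl A H c - sl A H c).card ≤ (inH (A - A) H).card := by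
  refine card_le_card ?_
  have h := sl_sub_sl A H c c
  rwa [sub_self, ← inH_eq] at h

theorem line_ge (hp : p.Prime) (hG : ∀ g : G, p • g = 0) (A : Finset G) (H : AddSubgroup G) {q : ℕ}
    (h : q * Nat.card (G ⧸ H) < A.card) : min p (2 * q + 1) ≤ (inH (A - A) H).card := by
  obtain ⟨c, hc⟩ := exists_sl A H h
  have hne : (sl A H c).Nonempty := card_pos.1 (by omega)
  have h1 := cd_sub hp hG hne hne
  have h2 := diff_le A H c
  refine le_trans ?_ (h1.trans h2)
  exact min_le_min le_rfl (by omega)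

theorem line_full (hp : p.Prime) (hG : ∀ g : G, p • g = 0) (A : Finset G) (H : AddSubgroup G)
    (hH : Nat.card H = p) (c : G ⧸ H) (h : p < 2 * (sl A H c).card) : ∀ x ∈ H, x ∈ A - A := by
  have hne : (sl A H c).Nonempty := card_pos.1 (by omega)
  have h1 := cd_sub hp hG hne hne
  have h2 := diff_le A H c
  have h3 : p ≤ (inH (A - A) H).card := by
    refine le_trans ?_ (h1.trans h2)
    exact le_min le_rfl (by omega)
  have h4 : ((inH (A - A) H : Finset G) : Set G) ⊆ (H : Set G) := by
    intro x hx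
    exact (mem_inH.1 (mem_coe.1 hx)).2
  have h5 : (H : Set G).ncard = p := by
    rw [← hH]
    rfl
  have h6 := Set.eq_of_subset_of_ncard_le h4 (by rw [h5, Set.ncard_coe_finset]; exact h3)
    (Set.toFinite _)
  intro x hx
  have h7 : x ∈ ((inH (A - A) H : Finset G) : Set G) := by
    rw [h6]
    exact hx
  exact (mem_inH.1 (mem_coe.1 h7)).1

end

end Pool.Agent.Helper27.EA
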