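import Pool.Agent.Helper27.EA.ThmD

/-!
# EA-13 SymLow: `h`-fold sumsets of symmetric sets

`B = -B`, `q p ^ j < |B|`, `h ≥ 2`: `min p (h q + 1) p ^ j ≤ |hfold h B|`. `h = 2`: `hfold 2 B = B + (B + {0}) = B - B`, `thmD`. Step `h → h + 1`: `hfold (h + 1) B = B + hfold h B`, `kneser` (Helper23): a subgroup `K` with `Per K (B + hfold h B)` and, for the images in `G ⧸ K`,
`|B/K| + |hB/K| ≤ |((h+1)B)/K| + 1`; multiply by `|K| = p ^ i` (`card_pow` for `K`; a `K`-periodic set has `|K|` times the size of its image: `card_pre`, `QuotientAddGroup.ker_mk'`; `card_le_image` in general). `i ≥ j + 1`: `|(h + 1) B| ≥ |K| ≥ p ^ (j + 1)`.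
`i ≤ j`: `|K| |B/K| ≥ |B| > q p ^ j` is a multiple of `p ^ i`, so `≥ q p ^ j + p ^ i`, and `|(h+1)B| ≥ |K| |hB/K| + |K| |B/K| - |K| ≥ |hB| + q p ^ j`.
-/

set_option autoImplicit false

open Finset
open scoped Pointwise

namespace Pool.Agent.Helper27.EA

open Pool.Agent.Helper25.SignedMin

section
open Classical
variable {p : ℕ} {G : Type*} [AddCommGroup G] [Fintype G]

private lemma per_card (K : AddSubgroup G) {C : Finset G} (hC : Pool.Agent.Helper23.Per K C) :
    Nat.card K * (C.image (QuotientAddGroup.mk' K)).card ≤ C.card := by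
  have : Fintype (G ⧸ K) := Fintype.ofFinite _
  have h1 := Pool.Agent.Helper23.card_pre (QuotientAddGroup.mk' K)
    (QuotientAddGroup.mk'_surjective K) (C.image (QuotientAddGroup.mk' K))
  rw [QuotientAddGroup.ker_mk'] at h1
  rw [← h1]
  apply card_le_card
  intro g hg
  simp only [mem_filter, mem_univ, true_and, mem_image] at hg
  obtain ⟨c, hc, hcg⟩ := hg
  have h2 : -c + g ∈ K := QuotientAddGroup.eq.mp hcg
  have h3 := hC c hc _ h2
  rwa [add_neg_cancel_left] at h3

/-- Kneser step, also used for the asymmetric sets -/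
theorem kneser_step (hp : p.Prime) (hG : ∀ g : G, p • g = 0) (S T : Finset G) (hS : S.Nonempty)
    (hT : T.Nonempty) (j : ℕ) :
    p ^ (j + 1) ≤ (S + T).card ∨ ∃ i s t : ℕ, i ≤ j ∧ S.card ≤ s * p ^ i ∧ T.card ≤ t * p ^ i ∧
      s * p ^ i + t * p ^ i ≤ (S + T).card + p ^ i := by
  obtain ⟨K, hper, hcard⟩ := Pool.Agent.Helper23.kneser S T hS hT
  have : Fintype (G ⧸ K) := Fintype.ofFinite _
  obtain ⟨i, hi⟩ := card_pow (G := K) hp (sub_exp hG K)
  have h1 := per_card K hper
  have hS' := Pool.Agent.Helper23.card_le_image (QuotientAddGroup.mk' K)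
    (QuotientAddGroup.mk'_surjective K) S
  have hT' := Pool.Agent.Helper23.card_le_image (QuotientAddGroup.mk' K)
    (QuotientAddGroup.mk'_surjective K) T
  rw [QuotientAddGroup.ker_mk'] at hS' hT'
  rw [hi] at h1 hS' hT'
  have hpos : 0 < p ^ i := Nat.pow_pos hp.pos
  rcases Nat.lt_or_ge j i with hji | hji
  · left
    have h2 : 0 < ((S + T).image (QuotientAddGroup.mk' K)).card :=
      card_pos.mpr ((hS.add hT).image _)
    calc p ^ (j + 1) ≤ p ^ i := Nat.pow_le_pow_right hp.pos hji
      _ ≤ p ^ i * ((S + T).image (QuotientAddGroup.mk' K)).card := Nat.le_mul_of_pos_right _ h2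
      _ ≤ (S + T).card := h1
  · right
    refine ⟨i, (S.image (QuotientAddGroup.mk' K)).card, (T.image (QuotientAddGroup.mk' K)).card,
      hji, by rwa [mul_comm], by rwa [mul_comm], ?_⟩
    calc (S.image (QuotientAddGroup.mk' K)).card * p ^ i +
          (T.image (QuotientAddGroup.mk' K)).card * p ^ i
        = ((S.image (QuotientAddGroup.mk' K)).card +
          (T.image (QuotientAddGroup.mk' K)).card) * p ^ i := by ring
      _ ≤ (((S + T).image (QuotientAddGroup.mk' K)).card + 1) * p ^ i :=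
          Nat.mul_le_mul_right _ hcard
      _ = p ^ i * ((S + T).image (QuotientAddGroup.mk' K)).card + p ^ i := by ring
      _ ≤ (S + T).card + p ^ i := Nat.add_le_add_right h1 _

theorem sym_low (hp : p.Prime) (hG : ∀ g : G, p • g = 0) {j q : ℕ} (hq : 1 ≤ q) (hqp : q < p)
    (B : Finset G) (hB : ∀ b ∈ B, -b ∈ B) (ht : q * p ^ j < B.card) {h : ℕ} (hh : 2 ≤ h) :
    min p (h * q + 1) * p ^ j ≤ (hfold h B).card := by
  have hBne : B.Nonempty := card_pos.mp (by omega)
  induction h, hh using Nat.le_induction with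
  | base =>
    have h1 : hfold 2 B = B - B := by
      rw [show (2 : ℕ) = 0 + 1 + 1 from rfl, hfold_succ, hfold_succ, hfold_zero]
      ext x
      simp only [mem_add, mem_sub, mem_singleton]
      constructor
      · rintro ⟨a, ha, b, ⟨c, hc, d, rfl, rfl⟩, rfl⟩
        exact ⟨a, ha, -c, hB c hc, by abel⟩
      · rintro ⟨a, ha, b, hb, rfl⟩
        exact ⟨a, ha, -b, ⟨-b, hB b hb, 0, rfl, by abel⟩, by abel⟩
    rw [h1]
    exact thmD hp hG B hq hqp ht
  | succ h hh ih =>
    rw [hfold_succ]
    rcases kneser_step hp hG B (hfold h B) hBne (hfold_nonempty h hBne) j with h1 | h1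
    · calc min p ((h + 1) * q + 1) * p ^ j ≤ p * p ^ j := Nat.mul_le_mul_right _ (min_le_left _ _)
        _ = p ^ (j + 1) := by ring
        _ ≤ _ := h1
    · obtain ⟨i, s, t, hij, hs, hT, hst⟩ := h1
      have hpos : 0 < p ^ i := Nat.pow_pos hp.pos
      have hpj : p ^ j = p ^ (j - i) * p ^ i := by rw [← pow_add]; congr 1; omega
      have h2 : q * p ^ (j - i) < s := by
        have : q * p ^ (j - i) * p ^ i < s * p ^ i := by
          rw [mul_assoc, ← hpj]; omega
        exact lt_of_mul_lt_mul_right this (Nat.zero_le _)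
      have h3 : q * p ^ j + p ^ i ≤ s * p ^ i := by
        calc q * p ^ j + p ^ i = (q * p ^ (j - i) + 1) * p ^ i := by rw [hpj]; ring
          _ ≤ s * p ^ i := Nat.mul_le_mul_right _ h2
      have h4 : q * p ^ j + (hfold h B).card ≤ (B + hfold h B).card := by omega
      calc min p ((h + 1) * q + 1) * p ^ j ≤ (q + min p (h * q + 1)) * p ^ j := by
            apply Nat.mul_le_mul_right
            have : (h + 1) * q = h * q + q := by ring
            omega
        _ = q * p ^ j + min p (h * q + 1) * p ^ j := by ring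
        _ ≤ q * p ^ j + (hfold h B).card := Nat.add_le_add_left ih _
        _ ≤ _ := h4

end

end Pool.Agent.Helper27.EA
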