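import Pool.Agent.Helper27.EA.PlaneGe

/-!
# EA-12 ThmD: the difference set theorem

* `dense`: `|G| = p ^ (j + 1)`, `q p ^ j < |A|`. Every line `L` has index `p ^ j` (`card_quot`), so `|inH D L| ≥ min p (2 q + 1)` (`line_ge`), `D = A - A ∋ 0`.
  `2 q + 1 ≥ p`: `line_bound` with `r = p - 1`, `n = j + 1`: `(p - 1) (p ^ (j + 1) - 1) ≤ (p - 1) (|D| - 1)`, so `|D| ≥ p ^ (j + 1)`.
  `2 q + 1 < p`: `j = 0`: `cd_sub` (`|A| ≥ q + 1`). `j = 1`: `dim2`. `j ≥ 2`: if all lines have `|inH D L| ≥ 2 q + 2`: `line_bound` with `r = 2 q + 1`: `(2 q + 1) (p ^ (j + 1) - 1) ≤ (p - 1) (|D| - 1)` and `p ^ (j + 1) - 1 ≥ (p - 1) p ^ j`. Otherwise a line `⟨y⟩` with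
  `|inH D ⟨y⟩| = 2 q + 1 = a`; `plane_ge` (index `p ^ (j - 1)`) gives `|inH D V| ≥ (2 q + 1) p = a + b`, `b = (2 q + 1) (p - 1)` for all planes `V = ⟨y⟩ ⊔ ⟨x⟩` (`card_plane`), and `plane_bound`: `b (p ^ (j + 1) - p) ≤ (p² - p) (|D| - a)`, so `(2 q + 1) (p ^ j - 1) ≤ |D| - a`.
* `thmD`: induction on `n` (`|G| = p ^ n`, all groups in the universe, `card_pow`). `n ≤ j`: `|A| ≤ p ^ n ≤ p ^ j`, contradiction. `n = j + 1`: `dense`. `n ≥ j + 2`: if some `x ≠ 0` has `inH D ⟨x⟩ = {0}`, then `A → G ⧸ ⟨x⟩` is injective, the image `A'` has `|A'| = |A|` and `A' - A'` is the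
  image of `D`, `|A' - A'| ≤ |D|`; induction (`card_quot`, `quot_exp`). Otherwise `|inH D ⟨x⟩| ≥ 2` for all `x ≠ 0` and `≥ 3` for `p` odd (`D = -D`, `d ≠ -d`); `line_bound` with `r = 2` (`p` odd) or `r = 1 = p - 1` (`p = 2`): `|D| ≥ p ^ (j + 1)`:
  `2 (p ^ n - 1) ≤ (p - 1) (|D| - 1)`, `p ^ n - 1 ≥ (p - 1) p ^ (n - 1)`.
-/

set_option autoImplicit false

open Finset
open scoped Pointwise

namespace Pool.Agent.Helper27.EA

section
open Classical
variable {p : ℕ}

private theorem thmD_zero_mem {G : Type*} [AddCommGroup G] (A : Finset G) (h : 0 < A.card) :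
    (0 : G) ∈ A - A := by
  obtain ⟨a, ha⟩ := Finset.card_pos.1 h
  have h1 : a - a ∈ A - A := sub_mem_sub ha ha
  rwa [sub_self] at h1

private theorem thmD_pow (hp : 0 < p) (n : ℕ) : (p - 1) * p ^ n ≤ p ^ (n + 1) - 1 := by
  obtain ⟨r, rfl⟩ : ∃ r, p = r + 1 := ⟨p - 1, by omega⟩
  have h1 : 1 ≤ (r + 1) ^ n := Nat.one_le_pow _ _ (by omega)
  have h2 : (r + 1) ^ (n + 1) = r * (r + 1) ^ n + (r + 1) ^ n := by ring
  rw [h2, Nat.add_sub_cancel]
  omega

theorem dense {G : Type*} [AddCommGroup G] [Finite G] (hp : p.Prime) (hG : ∀ g : G, p • g = 0)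
    {j : ℕ} (hcard : Nat.card G = p ^ (j + 1)) (A : Finset G) {q : ℕ} (hq : 1 ≤ q) (hqp : q < p)
    (ht : q * p ^ j < A.card) : min p (2 * q + 1) * p ^ j ≤ (A - A).card := by
  have hp2 := hp.two_le
  have hApos : 0 < A.card := lt_of_le_of_lt (Nat.zero_le _) ht
  have h0 : (0 : G) ∈ A - A := thmD_zero_mem A hApos
  have hDpos : 0 < (A - A).card := Finset.card_pos.2 ⟨0, h0⟩
  have hline : ∀ x : G, x ≠ 0 →
      min p (2 * q + 1) ≤ (inH (A - A) (AddSubgroup.zmultiples x)).card := by
    intro x hx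
    refine line_ge hp hG A (AddSubgroup.zmultiples x) ?_
    have h1 : Nat.card (AddSubgroup.zmultiples x) = p ^ 1 := by
      rw [pow_one]
      exact card_line hp hG hx
    rw [card_quot (i := 1) (k := j) hp _ h1 (by rw [hcard, add_comm])]
    exact ht
  by_cases hc : p ≤ 2 * q + 1
  · rw [min_eq_left hc] at hline ⊢
    have h1 := line_bound hp hG hcard (A - A) h0 (p - 1) (by
      intro x hx
      rw [Nat.sub_add_cancel hp.one_le]
      exact hline x hx)
    have h2 : p ^ (j + 1) - 1 ≤ (A - A).card - 1 :=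
      Nat.le_of_mul_le_mul_left h1 (by omega)
    have h3 : p * p ^ j = p ^ (j + 1) := by ring
    rw [h3]
    omega
  · have hc' : 2 * q + 1 < p := not_le.1 hc
    rw [min_eq_right hc'.le] at hline ⊢
    rcases j with _ | _ | j
    · -- order p
      rw [pow_zero, mul_one] at ht ⊢
      have hAne : A.Nonempty := Finset.card_pos.1 hApos
      have h1 := cd_sub hp hG hAne hAne
      refine le_trans ?_ h1
      refine le_min hc'.le ?_
      omega
    · -- order p ^ 2
      rw [zero_add, pow_one] at ht ⊢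
      exact dim2 hp hG hcard A hq hc' ht
    · by_cases hall : ∀ x : G, x ≠ 0 →
          2 * q + 1 + 1 ≤ (inH (A - A) (AddSubgroup.zmultiples x)).card
      · have h1 := line_bound hp hG hcard (A - A) h0 (2 * q + 1) hall
        have h2 := thmD_pow (p := p) (by omega) (j + 1 + 1)
        have h3 : (p - 1) * ((2 * q + 1) * p ^ (j + 1 + 1)) ≤ (p - 1) * ((A - A).card - 1) := by
          calc (p - 1) * ((2 * q + 1) * p ^ (j + 1 + 1))
              = (2 * q + 1) * ((p - 1) * p ^ (j + 1 + 1)) := by ring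
            _ ≤ (2 * q + 1) * (p ^ (j + 1 + 1 + 1) - 1) := Nat.mul_le_mul_left _ h2
            _ ≤ _ := h1
        have h4 := Nat.le_of_mul_le_mul_left h3 (by omega)
        omega
      · push Not at hall
        obtain ⟨y, hy, hy2⟩ := hall
        have hy1 := hline y hy
        have hycard : (inH (A - A) (AddSubgroup.zmultiples y)).card = 2 * q + 1 := by omega
        have hle : 2 * q + 1 ≤ (A - A).card := by
          rw [← hycard]
          exact Finset.card_le_card (inH_subset _ _)
        have h1 := plane_bound hp hG hcard (A - A) hy (2 * q + 1) ((2 * q + 1) * (p - 1)) hycard (by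
          intro x hx
          have h2 := card_plane hp hG hy hx
          have h3 := plane_ge hp hG A (AddSubgroup.zmultiples y ⊔ AddSubgroup.zmultiples x) h2 hq
            hc' (by
              rw [card_quot (i := 2) (k := j + 1) hp _ h2 (by rw [hcard]; congr 1; ring)]
              have h4 : q * p * p ^ (j + 1) = q * p ^ (j + 1 + 1) := by ring
              rw [h4]
              exact ht)
          have h5 : 2 * q + 1 + (2 * q + 1) * (p - 1) = (2 * q + 1) * p := by
            obtain ⟨r, rfl⟩ : ∃ r, p = r + 1 := ⟨p - 1, by omega⟩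
            rw [Nat.add_sub_cancel]
            ring
          rw [h5]
          exact h3)
        have h2 : (p ^ 2 - p) * ((2 * q + 1) * (p ^ (j + 1 + 1) - 1)) ≤
            (p ^ 2 - p) * ((A - A).card - (2 * q + 1)) := by
          refine le_trans (le_of_eq ?_) h1
          have h3 : p ^ 2 - p = p * (p - 1) := by
            rw [Nat.mul_sub, mul_one, pow_two]
          have h4 : p ^ (j + 1 + 1 + 1) - p = p * (p ^ (j + 1 + 1) - 1) := by
            rw [Nat.mul_sub, mul_one, ← pow_succ']
          rw [h3, h4]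
          ring
        have h3 : 0 < p ^ 2 - p := by
          have h4 : p * 2 ≤ p * p := Nat.mul_le_mul_left _ hp2
          rw [pow_two]
          omega
        have h4 := Nat.le_of_mul_le_mul_left h2 h3
        have h5 : (2 * q + 1) * (p ^ (j + 1 + 1) - 1) = (2 * q + 1) * p ^ (j + 1 + 1) - (2 * q + 1) := by
          rw [Nat.mul_sub, mul_one]
        rw [h5] at h4
        omega

private theorem thmD_image {G : Type*} [AddCommGroup G] {Q : Type*} [AddCommGroup Q] (f : G →+ Q)
    (A : Finset G) (hinj : Set.InjOn f (A : Set G)) :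
    ∃ A' : Finset Q, A'.card = A.card ∧ (A' - A').card ≤ (A - A).card := by
  refine ⟨A.image f, Finset.card_image_of_injOn hinj, ?_⟩
  refine le_trans (Finset.card_le_card ?_) (Finset.card_image_le (s := A - A) (f := f))
  intro z hz
  obtain ⟨u, hu, v, hv, rfl⟩ := mem_sub.1 hz
  obtain ⟨a, ha, rfl⟩ := Finset.mem_image.1 hu
  obtain ⟨b, hb, rfl⟩ := Finset.mem_image.1 hv
  exact Finset.mem_image.2 ⟨a - b, sub_mem_sub ha hb, map_sub _ _ _⟩

private theorem thmD_quot {G : Type*} [AddCommGroup G] (A : Finset G) (x : G) (h0 : (0 : G) ∈ A - A)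
    (h : (inH (A - A) (AddSubgroup.zmultiples x)).card ≤ 1) :
    Set.InjOn (QuotientAddGroup.mk' (AddSubgroup.zmultiples x)) (A : Set G) := by
  intro a ha b hb hab
  have h1 : a - b ∈ AddSubgroup.zmultiples x := by
    have h2 : QuotientAddGroup.mk' (AddSubgroup.zmultiples x) (a - b) = 0 := by
      rw [map_sub]
      exact sub_eq_zero.2 hab
    exact (QuotientAddGroup.eq_zero_iff _).1 h2
  have h2 : a - b ∈ inH (A - A) (AddSubgroup.zmultiples x) :=
    mem_inH.2 ⟨sub_mem_sub (Finset.mem_coe.1 ha) (Finset.mem_coe.1 hb), h1⟩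
  have h3 : (0 : G) ∈ inH (A - A) (AddSubgroup.zmultiples x) :=
    mem_inH.2 ⟨h0, AddSubgroup.zero_mem _⟩
  exact sub_eq_zero.1 (Finset.card_le_one.1 h _ h2 _ h3)

universe u

private theorem thmD_aux (hp : p.Prime) {j q : ℕ} (hq : 1 ≤ q) (hqp : q < p) (n : ℕ) :
    ∀ (G : Type u) [AddCommGroup G] [Finite G], (∀ g : G, p • g = 0) → Nat.card G = p ^ n →
      ∀ A : Finset G, q * p ^ j < A.card → min p (2 * q + 1) * p ^ j ≤ (A - A).card := by
  induction n with
  | zero =>
    intro G _ _ hG hcard A ht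
    exfalso
    have := Fintype.ofFinite G
    have h1 := A.card_le_univ
    rw [← Nat.card_eq_fintype_card, hcard, pow_zero] at h1
    have h2 : 1 ≤ p ^ j := Nat.one_le_pow _ _ hp.pos
    have h3 : 1 * 1 ≤ q * p ^ j := Nat.mul_le_mul hq h2
    omega
  | succ n ih =>
    intro G _ _ hG hcard A ht
    rcases lt_trichotomy n j with hnj | hnj | hnj
    · exfalso
      have := Fintype.ofFinite G
      have h1 := A.card_le_univ
      rw [← Nat.card_eq_fintype_card, hcard] at h1
      have h2 : p ^ (n + 1) ≤ p ^ j := Nat.pow_le_pow_right hp.pos (by omega)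
      have h3 : 1 * p ^ j ≤ q * p ^ j := Nat.mul_le_mul_right _ hq
      omega
    · subst hnj
      exact dense hp hG hcard A hq hqp ht
    · have hApos : 0 < A.card := lt_of_le_of_lt (Nat.zero_le _) ht
      have h0 : (0 : G) ∈ A - A := thmD_zero_mem A hApos
      by_cases hx : ∃ x : G, x ≠ 0 ∧ (inH (A - A) (AddSubgroup.zmultiples x)).card ≤ 1
      · obtain ⟨x, hx0, hx1⟩ := hx
        obtain ⟨A', hA1, hA2⟩ := thmD_image (QuotientAddGroup.mk' (AddSubgroup.zmultiples x)) A
          (thmD_quot A x h0 hx1)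
        have h2 : Nat.card (AddSubgroup.zmultiples x) = p ^ 1 := by
          rw [pow_one]
          exact card_line hp hG hx0
        have h3 : Nat.card (G ⧸ AddSubgroup.zmultiples x) = p ^ n :=
          card_quot (i := 1) (k := n) hp _ h2 (by rw [hcard, add_comm])
        exact le_trans (ih (G ⧸ AddSubgroup.zmultiples x) (quot_exp hG _) h3 A'
          (by rw [hA1]; exact ht)) hA2
      · push Not at hx
        have h1 := line_bound hp hG hcard (A - A) h0 1 (by
          intro x hx0
          have := hx x hx0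
          omega)
        rw [one_mul] at h1
        have h2 := thmD_pow (p := p) hp.pos n
        have h3 := Nat.le_of_mul_le_mul_left (le_trans h2 h1) (by have := hp.two_le; omega)
        have h4 : p ^ (j + 1) ≤ p ^ n := Nat.pow_le_pow_right hp.pos hnj
        calc min p (2 * q + 1) * p ^ j ≤ p * p ^ j := Nat.mul_le_mul_right _ (min_le_left _ _)
          _ = p ^ (j + 1) := by ring
          _ ≤ p ^ n := h4
          _ ≤ (A - A).card - 1 := h3
          _ ≤ (A - A).card := Nat.sub_le _ _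

theorem thmD {G : Type*} [AddCommGroup G] [Finite G] (hp : p.Prime) (hG : ∀ g : G, p • g = 0)
    {j : ℕ} (A : Finset G) {q : ℕ} (hq : 1 ≤ q) (hqp : q < p) (ht : q * p ^ j < A.card) :
    min p (2 * q + 1) * p ^ j ≤ (A - A).card := by
  obtain ⟨n, hn⟩ := card_pow hp hG
  exact thmD_aux hp hq hqp n G hG hn A ht

end

end Pool.Agent.Helper27.EA
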