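import Pool.Agent.Helper27.EA.Asym

/-!
# EA-17 Upper: upper bounds for `rhoPM`

`q p ^ j < m ≤ (q + 1) p ^ j`, `m ≤ |G|`.
* `rho_upper`: if `p ≤ h q + 1`: a subgroup `H` of order `p ^ (j + 1)` (`exists_sub`: `p ^ (j + 1) ≤ |G|` because `|G|` is a power of `p` larger than `p ^ j`) is a symmetric set with `hfold h H ⊆ H` containing an `m`-subset (`rho_le`, `ncard_signed_le`; or `rho_le_of_dvd`).
  If `h q + 1 < p` (so `2 q < p`): `K` of order `p ^ j`, `g ∉ K` (`|G| > p ^ j`), `g` has order `p` in `G ⧸ K`; `cosets K g q` is symmetric (`cosets_neg`), has `p ^ j (q + 1)` elements (`cosets_card`), `cosets_fold`. Take an `m`-subset (`Finset.exists_subset_card_eq`), `rho_le`, `ncard_signed_le`.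
* `rho_upper_two`: `2 q + 1 = p`, `2 m < p ^ (j + 1)`: `H` of order `p ^ (j + 1)`; `H \ {0}` contains an asymmetric set `A` with `m` elements (`m ≤ (p ^ (j + 1) - 1) / 2`: choose one element of every pair `{x, -x}`; e.g. greedily by induction on `m`: an asymmetric `A ⊆ H \ {0}` with `2 |A| < p ^ (j + 1) - 1`
  can be enlarged by an element of `H \ ({0} ∪ pm A)`). `signedSumset 2 A ⊆ H \ {0}`: a signed sum of length `2` is `± 2 a` or `± a ± b` with `a ≠ b`, `a + b ≠ 0`, and `2 a ≠ 0`.
-/

set_option autoImplicit false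

open Finset
open scoped Pointwise

namespace Pool.Agent.Helper27.EA

open Pool.Agent.Helper25.SignedMin

section
open Classical
variable {p : ℕ} {G : Type*} [AddCommGroup G] [Fintype G]

theorem rho_upper (hp : p.Prime) (hG : ∀ g : G, p • g = 0) {m h j q : ℕ} (hh : 2 ≤ h) (hq : 1 ≤ q)
    (hqp : q < p) (hmG : m ≤ Nat.card G) (h1 : q * p ^ j < m) (h2 : m ≤ (q + 1) * p ^ j) :
    rhoPM G m h ≤ min p (h * q + 1) * p ^ j := by
  obtain ⟨N, hN⟩ := card_pow hp hG
  have hp1 : 1 < p := hp.one_lt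
  have hpj : p ^ j < p ^ N := by
    have h3 : 1 * p ^ j ≤ q * p ^ j := Nat.mul_le_mul_right _ hq
    rw [hN] at hmG
    omega
  have hjN : j < N := (Nat.pow_lt_pow_iff_right hp1).1 hpj
  rcases Nat.lt_or_ge (h * q + 1) p with hc | hc
  · rw [min_eq_right hc.le]
    have : Fact p.Prime := ⟨hp⟩
    obtain ⟨K, hK⟩ := exists_sub hp hG (i := j) (by rw [hN]; exact hpj.le)
    obtain ⟨g, hg⟩ : ∃ g : G, g ∉ K := by
      by_contra hcon
      push Not at hcon
      have htop : K = ⊤ := by
        ext x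
        simp [hcon x]
      rw [htop, AddSubgroup.card_top, hN] at hK
      omega
    have ho : addOrderOf (QuotientAddGroup.mk' K g) = p := by
      refine addOrderOf_eq_prime (by rw [← map_nsmul, hG, map_zero]) ?_
      rw [QuotientAddGroup.mk'_apply, Ne, QuotientAddGroup.eq_zero_iff]
      exact hg
    have hqo : 2 * q < addOrderOf (QuotientAddGroup.mk' K g) := by
      rw [ho]
      have : 2 * q ≤ h * q := Nat.mul_le_mul_right _ hh
      omega
    have hcard := cosets_card K g q hqo
    have hmle : m ≤ (cosets K g q).card := by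
      rw [hcard, hK, mul_comm]
      exact h2
    obtain ⟨A, hA, hAc⟩ := exists_subset_card_eq hmle
    calc rhoPM G m h ≤ (signedSumset h A).ncard := rho_le A hAc
      _ ≤ (hfold h (cosets K g q)).card := ncard_signed_le (cosets_neg _ _ _) hA h
      _ ≤ Nat.card K * (h * q + 1) := cosets_fold _ _ _ _
      _ = (h * q + 1) * p ^ j := by rw [hK, mul_comm]
  · rw [min_eq_left hc]
    refine rho_le_of_dvd ?_ ?_
    · rw [hN, ← pow_succ']
      exact pow_dvd_pow p hjN
    · exact h2.trans (Nat.mul_le_mul_right _ hqp)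

private theorem up_two {p : ℕ} {G : Type*} [AddCommGroup G] (hG : ∀ g : G, p • g = 0) {q : ℕ}
    (hqp : 2 * q + 1 = p) {x : G} (hx : x + x = 0) : x = 0 := by
  have h1 := hG x
  rw [← hqp, add_nsmul, one_nsmul, mul_comm, mul_nsmul', two_nsmul, hx, nsmul_zero,
    zero_add] at h1
  exact h1

private theorem up_asym {p : ℕ} {G : Type*} [AddCommGroup G] [Fintype G]
    (hG : ∀ g : G, p • g = 0) {q : ℕ} (hqp : 2 * q + 1 = p) (H : AddSubgroup G) :
    ∀ k : ℕ, 2 * k < Nat.card H → ∃ A : Finset G, A.card = k ∧ IsAsymmetric A ∧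
      ∀ a ∈ A, a ∈ H := by
  intro k
  induction k with
  | zero =>
    intro _
    exact ⟨∅, rfl, fun a ha => absurd ha (notMem_empty a), fun a ha => absurd ha (notMem_empty a)⟩
  | succ k ih =>
    intro hk
    obtain ⟨A, hA, has, hAH⟩ := ih (by omega)
    have hc1 : (insert 0 (pm A)).card ≤ 2 * k + 1 := by
      have h1 := card_insert_le (0 : G) (pm A)
      rw [card_pm has, hA] at h1
      exact h1
    have hc2 : (univ.filter fun x : G => x ∈ H).card = Nat.card H := by
      exact Pool.Agent.Helper23.card_filter_mem H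
    obtain ⟨x, hx, hx'⟩ : ∃ x ∈ univ.filter (fun x : G => x ∈ H), x ∉ insert 0 (pm A) := by
      by_contra hcon
      push Not at hcon
      have h3 := card_le_card (show univ.filter (fun x : G => x ∈ H) ⊆ insert 0 (pm A) from hcon)
      omega
    rw [mem_filter] at hx
    rw [mem_insert, not_or, mem_pm, not_or] at hx'
    obtain ⟨hx0, hxA, hnxA⟩ := hx'
    refine ⟨insert x A, by rw [card_insert_of_notMem hxA, hA], ?_, ?_⟩
    · intro a ha hna
      rw [mem_insert] at ha hna
      rcases ha with rfl | ha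
      · rcases hna with h4 | h4
        · exact hx0 (up_two hG hqp (by
            have : a + a = a - -a := by abel
            rw [this, h4, sub_self]))
        · exact hnxA h4
      · rcases hna with h4 | h4
        · exact hnxA (by rw [← h4, neg_neg]; exact ha)
        · exact has a ha h4
    · intro a ha
      rw [mem_insert] at ha
      rcases ha with rfl | ha
      · exact hx.2
      · exact hAH a ha

private theorem up_ne {p : ℕ} {G : Type*} [AddCommGroup G]
    (hG : ∀ g : G, p • g = 0) {q : ℕ} (hqp : 2 * q + 1 = p) {A : Finset G}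
    (has : IsAsymmetric A) {c : G → ℤ} (hc : ∑ a ∈ A, |c a| = 2) : ∑ a ∈ A, c a • a ≠ 0 := by
  intro hsum
  obtain ⟨a, ha, hca⟩ : ∃ a ∈ A, c a ≠ 0 := by
    by_contra hcon
    push Not at hcon
    rw [sum_eq_zero fun a ha => by rw [hcon a ha, abs_zero]] at hc
    omega
  have ha0 : a ≠ 0 := by
    rintro rfl
    exact has 0 ha (by rw [neg_zero]; exact ha)
  rw [← add_sum_erase A _ ha] at hc hsum
  have hnn : 0 ≤ ∑ b ∈ A.erase a, |c b| := sum_nonneg fun b _ => abs_nonneg _
  have hca1 : 1 ≤ |c a| := Int.one_le_abs hca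
  have hzero : ∀ B : Finset G, ∑ b ∈ B, |c b| = 0 → ∑ b ∈ B, c b • b = 0 := by
    intro B hB
    rw [sum_eq_zero_iff_of_nonneg fun b _ => abs_nonneg _] at hB
    exact sum_eq_zero fun b hb => by rw [abs_eq_zero.1 (hB b hb), zero_smul]
  rcases Int.lt_or_le (|c a|) 2 with h2 | h2
  · have hca1' : |c a| = 1 := by omega
    have h3 : ∑ b ∈ A.erase a, |c b| = 1 := by omega
    obtain ⟨b, hb, hcb⟩ : ∃ b ∈ A.erase a, c b ≠ 0 := by
      by_contra hcon
      push Not at hcon
      rw [sum_eq_zero fun b hb => by rw [hcon b hb, abs_zero]] at h3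
      omega
    rw [← add_sum_erase _ _ hb] at h3 hsum
    have hnn' : 0 ≤ ∑ d ∈ (A.erase a).erase b, |c d| := sum_nonneg fun b _ => abs_nonneg _
    have hcb1 : 1 ≤ |c b| := Int.one_le_abs hcb
    have hcb1' : |c b| = 1 := by omega
    rw [hzero _ (by omega), add_zero] at hsum
    obtain ⟨hba, hbA⟩ := mem_erase.1 hb
    rcases abs_eq (zero_le_one' ℤ) |>.1 hca1' with e1 | e1 <;>
      rcases abs_eq (zero_le_one' ℤ) |>.1 hcb1' with e2 | e2 <;>
      rw [e1, e2] at hsum
    · rw [one_smul, one_smul] at hsum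
      exact has a ha (by rw [neg_eq_of_add_eq_zero_right hsum]; exact hbA)
    · rw [one_smul, neg_smul, one_smul, ← sub_eq_add_neg, sub_eq_zero] at hsum
      exact hba hsum.symm
    · rw [one_smul, neg_smul, one_smul, neg_add_eq_zero] at hsum
      exact hba hsum.symm
    · rw [neg_smul, neg_smul, one_smul, one_smul, ← neg_add, neg_eq_zero] at hsum
      exact has a ha (by rw [neg_eq_of_add_eq_zero_right hsum]; exact hbA)
  · have h3 : |c a| = 2 := by omega
    rw [hzero _ (by omega), add_zero] at hsum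
    rcases abs_eq (by norm_num : (0 : ℤ) ≤ 2) |>.1 h3 with e1 | e1
    · rw [e1, two_smul] at hsum
      exact ha0 (up_two hG hqp hsum)
    · rw [e1, neg_smul, two_smul, neg_eq_zero] at hsum
      exact ha0 (up_two hG hqp hsum)

theorem rho_upper_two (hp : p.Prime) (hG : ∀ g : G, p • g = 0) {m j q : ℕ} (hq : 1 ≤ q)
    (hqp : 2 * q + 1 = p) (hmG : m ≤ Nat.card G) (h1 : q * p ^ j < m) (h2 : 2 * m < p ^ (j + 1)) :
    rhoPM G m 2 ≤ p ^ (j + 1) - 1 := by
  obtain ⟨N, hN⟩ := card_pow hp hG
  have hp1 : 1 < p := hp.one_lt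
  have hpj : p ^ j < p ^ N := by
    have h3 : 1 * p ^ j ≤ q * p ^ j := Nat.mul_le_mul_right _ hq
    rw [hN] at hmG
    omega
  have hjN : j < N := (Nat.pow_lt_pow_iff_right hp1).1 hpj
  obtain ⟨H, hH⟩ := exists_sub hp hG (i := j + 1) (by
    rw [hN]
    exact Nat.pow_le_pow_right hp.pos hjN)
  obtain ⟨A, hA, has, hAH⟩ := up_asym hG hqp H m (by rw [hH]; exact h2)
  refine (rho_le A hA).trans ?_
  have hsub : signedSumset 2 A ⊆ (H : Set G) \ {0} := by
    rintro x ⟨c, hc, rfl⟩
    refine ⟨?_, ?_⟩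
    · exact AddSubgroup.sum_mem H fun a ha => AddSubgroup.zsmul_mem H (hAH a ha) _
    · rw [Set.mem_singleton_iff]
      exact up_ne hG hqp has hc
  refine (Set.ncard_le_ncard hsub (Set.toFinite _)).trans ?_
  rw [Set.ncard_sdiff_singleton_of_mem (show (0 : G) ∈ (H : Set G) from H.zero_mem),
    ← Nat.card_coe_set_eq]
  exact (congrArg (fun t => t - 1) hH).le

end

end Pool.Agent.Helper27.EA
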